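import Pool.Agent.Run7.h630.WL.Defs

/-!
# The fields of the Wilson loops which wind around the compact torus
-/

open MeasureTheory Filter Topology

namespace Run7.h630.ML

open Run7.h4.YM Run7.h630.WL

noncomputable section

/-- the product of the link variables along the closed line in the direction `2` through the point
with the coordinates `x.1, x.2, 0, y` -/
def loop {N l : ℕ} (V : LinkZ l → SU N) (x : ℤ × ℤ) (y : ZMod l) : SU N :=
  ((List.range l).map fun t : ℕ => V (2, (x.1, x.2, (t : ZMod l), y))).prod

/-- the momentum in the direction `3` of the mode `j = (c, n)`: `2 π (n + k c / N)` -/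
def mass (N k : ℕ) (j : ℕ × ℤ) : ℝ := 2 * Real.pi * (j.2 + k * j.1 / N)

/-- the Fourier mode `j = (c, n)`, in the coordinate `y = 1, ..., l` of the direction `3`, of the
traces of the loops which wind `c` times around the direction `2`, over the point `x` -/
def mode {N l : ℕ} (k : ℕ) (V : LinkZ l → SU N) (j : ℕ × ℤ) (x : ℤ × ℤ) : ℂ :=
  ∑ t ∈ Finset.range l, Complex.exp (Complex.I * (mass N k j * t / l)) *
    Matrix.trace (loop V x (1 + (t : ZMod l)) ^ j.1).1

/-- the point `x / l` of the plane -/
def point (l : ℕ) (x : ℤ × ℤ) : EuclideanSpace ℝ (Fin 2) := !₂[(x.1 : ℝ) / l, (x.2 : ℝ) / l]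

/-- the field of the mode `j = (c, n)`, on the lattice of the spacing `1 / l`, applied to the test
function `F` on the plane -/
def field {N l : ℕ} (k : ℕ) (β : ℝ) (V : LinkZ l → SU N) (j : ℕ × ℤ)
    (F : EuclideanSpace ℝ (Fin 2) → ℂ) : ℂ :=
  (Real.sqrt β / (j.1 * Real.sqrt N * l ^ 3) : ℝ) * ∑' x : ℤ × ℤ, F (point l x) * mode k V j x

end

end Run7.h630.ML
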