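import Mathlib
import Pool.Agent.Run7.h630.R2.Skew
import Pool.Agent.Run7.h630.R2.Up

/-!
# The scalar products of the one forms of the fibre loops
-/

open MeasureTheory Matrix Filter Pool.Agent.N991.MK Pool.Agent.N989.MK
open scoped Matrix.Norms.Frobenius Topology ComplexConjugate
open Pool.Agent.H906R3.YM Pool.Agent.W793.YM Pool.Agent.TH618.YM Pool.Agent.N984.TW
open Pool.Agent.N109.T3 (nz gs)
open Pool.Agent.Run7.h871.LG (adc nab ipE gt emE qE Dat Wt)
open Pool.Agent.Run7.h630.R2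
open Pool.Agent.Run7.h630 (R2.hh)

namespace Run7.h630.ML

set_option linter.unusedSectionVars false
set_option linter.unusedVariables false

noncomputable section

variable {N n : ℕ} [NeZero N] (B : Frame (SU N) n) {a b l : ℕ} [NeZero a] [NeZero b] [NeZero l]
  {P Q : SU N} {k : ℕ}

lemma trc (A : Mat N) : (trace Aᴴ).re = (trace A).re := by
  rw [trace_conjTranspose]
  rfl

/-- the coordinates only see the skew part -/
lemma kap_skew (M : Mat N) : kap B M = pc B ((1 / 2 : ℝ) • (Mᴴ - M)) := by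
  funext α
  rw [kap_pc]
  show ip (B.X α) (-M) = ip (B.X α) ((1 / 2 : ℝ) • (Mᴴ - M))
  have h1 : (trace (B.X α * Mᴴ)).re = -(trace (B.X α * M)).re := by
    rw [← trc, conjTranspose_mul, conjTranspose_conjTranspose, B.skewX, mul_neg, trace_neg,
      Complex.neg_re, trace_mul_comm]
  rw [ip_apply, ip_apply, B.skewX]
  simp only [mul_smul_comm, neg_mul, mul_neg, mul_sub, trace_smul, trace_sub, trace_neg,
    Complex.neg_re, Complex.sub_re, Complex.smul_re, smul_eq_mul]
  rw [h1]
  ring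

lemma skew_mem {M : Mat N} (h : trace M = 0) :
    (1 / 2 : ℝ) • (Mᴴ - M) ∈ Submodule.span ℝ (Set.range B.X) := by
  refine Submodule.smul_mem _ _ (su_mem B ?_ ?_)
  · rw [conjTranspose_sub, conjTranspose_conjTranspose]; abel
  · rw [trace_sub, trace_conjTranspose, h]; simp

/-- the scalar product of the coordinates -/
lemma kap_ip {M M' : Mat N} (h : trace M = 0) (h' : trace M' = 0) :
    ∑ α, kap B M α * kap B M' α = ((trace (Mᴴ * M')).re - (trace (M * M')).re) / 2 := by
  rw [kap_skew B M, kap_skew B M', ← ip_LX, LX_pc B (skew_mem B h), LX_pc B (skew_mem B h'),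
    ip_apply]
  have h1 : (trace (M * M'ᴴ)).re = (trace (Mᴴ * M')).re := by
    rw [← trc, conjTranspose_mul, conjTranspose_conjTranspose, trace_mul_comm]
  have h3 : (trace (Mᴴ * M'ᴴ)).re = (trace (M * M')).re := by
    rw [← conjTranspose_mul, trc, trace_mul_comm]
  simp only [conjTranspose_smul, star_trivial, conjTranspose_sub, conjTranspose_conjTranspose,
    smul_mul_assoc, mul_smul_comm, sub_mul, mul_sub, trace_smul, trace_sub, Complex.smul_re,
    Complex.sub_re, smul_eq_mul]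
  rw [h1, h3]
  ring

/-- the sum over the fibre -/
lemma sum_ph {x : ℂ} (hx : x ^ l = 1) :
    ∑ q : ZMod l, x ^ ((q - 1).val : ℕ) = if x = 1 then (l : ℂ) else 0 := by
  have h1 : ∑ q : ZMod l, x ^ ((q - 1).val : ℕ) = ∑ q : ZMod l, x ^ (q.val : ℕ) :=
    Equiv.sum_comp (Equiv.subRight (1 : ZMod l)) (fun q => x ^ (q.val : ℕ))
  have h2 : ∑ q : ZMod l, x ^ (q.val : ℕ) = ∑ i ∈ Finset.range l, x ^ i :=
    Finset.sum_bij (fun (x : ZMod l) _ => x.val)
      (fun x _ => Finset.mem_range.2 (ZMod.val_lt x))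
      (fun x _ y _ h => ZMod.val_injective l h)
      (fun i hi => ⟨(i : ZMod l), Finset.mem_univ _,
        ZMod.val_natCast_of_lt (Finset.mem_range.1 hi)⟩)
      (fun x _ => rfl)
  rw [h1, h2]
  split_ifs with h
  · simp [h]
  · rw [geom_sum_eq h, hx, sub_self, zero_div]

lemma ph_eq (z : ℂ) (θ : ℝ) (q : ZMod l) :
    ph z θ q = z * Complex.exp (Complex.I * θ) ^ ((q - 1).val : ℕ) := by
  unfold ph
  rw [← Complex.exp_nat_mul]
  congr 2
  ring

variable (P) in
/-- the scalar products of the fibre functions -/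
def HH (l : ℕ) [NeZero l] (z : ℂ) (θ : ℝ) (c : ℕ) (z' : ℂ) (θ' : ℝ) (c' : ℕ) : ℝ :=
  ∑ q : ZMod l, ∑ _p : ZMod l, ∑ α, hh B P z θ c q α * hh B P z' θ' c' q α

lemma ip_vv3 (z : ℂ) (θ : ℝ) (c : ℕ) (z' : ℂ) (θ' : ℝ) (c' : ℕ) (f g : ZMod a × ZMod b → ℝ) :
    ipE (vv B P z θ c f : V1 a b l n) (vv B P z' θ' c' g) =
      HH B P l z θ c z' θ' c' * ∑ u, f u * g u := by
  rw [ip_vv, Finset.mul_sum]
  refine Finset.sum_congr rfl fun u _ => ?_
  unfold HH
  rw [Finset.sum_mul, Finset.mul_sum]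
  refine Finset.sum_congr rfl fun q _ => ?_
  rw [Finset.sum_mul, Finset.mul_sum]
  refine Finset.sum_congr rfl fun p _ => ?_
  rw [Finset.sum_mul, Finset.mul_sum]
  refine Finset.sum_congr rfl fun α _ => ?_
  show f u * (hh B P z θ c q α * (if (2 : Fin 4) = 2 then g u * hh B P z' θ' c' q α else 0)) = _
  rw [if_pos rfl]
  ring

/-- the scalar products of the fibre functions, in terms of traces -/
lemma HH_tr (z : ℂ) (θ : ℝ) (c : ℕ) (z' : ℂ) (θ' : ℝ) (c' : ℕ) (hc : trace (mt P ^ c) = 0)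
    (hc' : trace (mt P ^ c') = 0) :
    HH B P l z θ c z' θ' c' = l * ((conj z * z' * c * c' * trace ((mt P ^ c)ᴴ * mt P ^ c') *
        ∑ q : ZMod l, Complex.exp (Complex.I * ((θ' - θ : ℝ) : ℂ)) ^ ((q - 1).val : ℕ)).re -
      (z * z' * c * c' * trace (mt P ^ c * mt P ^ c') *
        ∑ q : ZMod l, Complex.exp (Complex.I * ((θ' + θ : ℝ) : ℂ)) ^ ((q - 1).val : ℕ)).re) / 2 := by
  have h1 : ∀ q : ZMod l, ∑ α, hh B P z θ c q α * hh B P z' θ' c' q α =
      ((conj z * z' * c * c' * trace ((mt P ^ c)ᴴ * mt P ^ c') *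
        Complex.exp (Complex.I * ((θ' - θ : ℝ) : ℂ)) ^ ((q - 1).val : ℕ)).re -
      (z * z' * c * c' * trace (mt P ^ c * mt P ^ c') *
        Complex.exp (Complex.I * ((θ' + θ : ℝ) : ℂ)) ^ ((q - 1).val : ℕ)).re) / 2 := by
    intro q
    unfold R2.hh
    rw [kap_ip B (by rw [trace_smul, hc, smul_zero]) (by rw [trace_smul, hc', smul_zero])]
    congr 3
    · rw [conjTranspose_smul, smul_mul_smul_comm, trace_smul, smul_eq_mul]
      have e1 : star (ph z θ q * (c : ℂ)) = conj z * conj (Complex.exp (Complex.I * θ)) ^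
          ((q - 1).val : ℕ) * c := by
        rw [ph_eq, ← starRingEnd_apply]
        simp
      have e2 : conj (Complex.exp (Complex.I * θ)) * Complex.exp (Complex.I * θ') =
          Complex.exp (Complex.I * ((θ' - θ : ℝ) : ℂ)) := by
        rw [← Complex.exp_conj, ← Complex.exp_add]
        congr 1
        simp
        ring
      rw [e1, ph_eq, ← e2, mul_pow]
      ring
    · rw [smul_mul_smul_comm, trace_smul, smul_eq_mul]
      have e2 : Complex.exp (Complex.I * θ) * Complex.exp (Complex.I * θ') =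
          Complex.exp (Complex.I * ((θ' + θ : ℝ) : ℂ)) := by
        rw [← Complex.exp_add]
        congr 1
        push_cast
        ring
      rw [ph_eq, ph_eq, ← e2, mul_pow]
      ring
  unfold HH
  simp only [h1, Finset.sum_const, Finset.card_univ, ZMod.card, nsmul_eq_mul]
  rw [← Finset.mul_sum, ← Finset.sum_div, Finset.sum_sub_distrib, ← Complex.re_sum,
    ← Complex.re_sum, ← Finset.mul_sum, ← Finset.mul_sum, mul_div_assoc]

end

end Run7.h630.ML
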