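import Mathlib
import Pool.Agent.Run7.h630.ML.Kap
import Pool.Agent.Run7.h630.ML.Defs

/-!
# The momenta and the orthogonality of the modes
-/

open MeasureTheory Matrix Filter Pool.Agent.N991.MK Pool.Agent.N989.MK
open scoped Matrix.Norms.Frobenius Topology ComplexConjugate
open Pool.Agent.H906R3.YM Pool.Agent.W793.YM Pool.Agent.TH618.YM Pool.Agent.N984.TW
open Pool.Agent.N109.T3 (nz gs)
open Pool.Agent.Run7.h871.LG (adc nab ipE gt emE qE Dat Wt)
open Pool.Agent.Run7.h630.R2

namespace Run7.h630.ML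

set_option linter.unusedSectionVars false
set_option linter.unusedVariables false

noncomputable section

variable {N n : ℕ} [NeZero N] (B : Frame (SU N) n) {a b l : ℕ} [NeZero a] [NeZero b] [NeZero l]
  {P Q : SU N} {k : ℕ}

lemma zk_ne (hk : Nat.Coprime k N) {j : ℕ} (hj : ¬ N ∣ j) : (zeta N ^ k) ^ j ≠ 1 := by
  intro h
  rw [← pow_mul] at h
  have h1 := (Complex.isPrimitiveRoot_exp N (NeZero.ne N)).pow_eq_one_iff_dvd (k * j)
  exact hj (hk.symm.dvd_of_dvd_mul_left (h1.1 h))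

lemma not_dvd {c : ℕ} (h1 : 1 ≤ c) (h2 : c < N) : ¬ N ∣ c := fun h =>
  absurd (Nat.le_of_dvd h1 h) (by omega)

lemma tr_PP (hPQ : TwPair N (zeta N ^ k) P Q) (hk : Nat.Coprime k N) {c c' : ℕ} (h1 : c < N)
    (h2 : c' < N) : trace ((mt P ^ c)ᴴ * mt P ^ c') = if c = c' then (N : ℂ) else 0 := by
  have hu : ∀ j : ℕ, (mt P ^ j)ᴴ * mt P ^ j = 1 := fun j => by
    have : (mt (P ^ j))ᴴ * mt (P ^ j) = 1 := rhoG_unit' (P ^ j)
    rwa [mt_pow'] at this
  rcases lt_trichotomy c c' with h | h | h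
  · rw [if_neg (by omega)]
    obtain ⟨d, rfl⟩ : ∃ d, c' = c + d := ⟨c' - c, by omega⟩
    rw [pow_add, ← mul_assoc, hu, one_mul]
    exact trP hPQ (zk_ne hk (not_dvd (by omega) (by omega)))
  · subst h
    rw [if_pos rfl, hu, trace_one, Fintype.card_fin]
  · rw [if_neg (by omega)]
    obtain ⟨d, rfl⟩ : ∃ d, c = c' + d := ⟨c - c', by omega⟩
    rw [pow_add, (Commute.refl (mt P)).pow_pow _ _ |>.eq]
    rw [conjTranspose_mul, mul_assoc]
    have h3 : (mt P ^ d)ᴴ * mt P ^ c' = mt P ^ c' * (mt P ^ d)ᴴ := by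
      have h4 : mt P ^ d * (mt P ^ d)ᴴ = 1 := by
        have : mt (P ^ d) * (mt (P ^ d))ᴴ = 1 := rhoG_unit (P ^ d)
        rwa [mt_pow'] at this
      calc (mt P ^ d)ᴴ * mt P ^ c' = (mt P ^ d)ᴴ * mt P ^ c' * (mt P ^ d * (mt P ^ d)ᴴ) := by
            rw [h4, mul_one]
        _ = (mt P ^ d)ᴴ * (mt P ^ c' * mt P ^ d) * (mt P ^ d)ᴴ := by simp only [mul_assoc]
        _ = (mt P ^ d)ᴴ * (mt P ^ d * mt P ^ c') * (mt P ^ d)ᴴ := by
            rw [(Commute.refl (mt P)).pow_pow c' d |>.eq]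
        _ = mt P ^ c' * (mt P ^ d)ᴴ := by
            rw [← mul_assoc ((mt P ^ d)ᴴ), hu, one_mul]
    rw [h3, ← mul_assoc, hu, one_mul, trace_conjTranspose,
      trP hPQ (zk_ne hk (not_dvd (by omega) (by omega))), star_zero]

lemma exp_mass (j : ℕ × ℤ) : Complex.exp (Complex.I * (mass N k j : ℝ)) =
    (zeta N ^ k) ^ j.1 := by
  have hN : (N : ℂ) ≠ 0 := by exact_mod_cast NeZero.ne N
  unfold mass zeta
  rw [← pow_mul, ← Complex.exp_nat_mul]
  have e1 : Complex.I * ((2 * Real.pi * (j.2 + k * j.1 / N) : ℝ) : ℂ) =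
      ((k * j.1 : ℕ) : ℂ) * (2 * Real.pi * Complex.I / N) + j.2 * (2 * Real.pi * Complex.I) := by
    push_cast
    field_simp
    ring
  rw [e1, Complex.exp_add, Complex.exp_int_mul_two_pi_mul_I, mul_one]

lemma exp_div (j : ℕ × ℤ) : Complex.exp (Complex.I * ((mass N k j / l : ℝ) : ℂ)) ^ l =
    (zeta N ^ k) ^ j.1 := by
  have hl : (l : ℂ) ≠ 0 := by exact_mod_cast NeZero.ne l
  rw [← exp_mass, ← Complex.exp_nat_mul]
  congr 1
  push_cast
  field_simp

lemma exp_ne_one {x : ℝ} (h0 : x ≠ 0) (h1 : |x| < 2 * Real.pi) :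
    Complex.exp (Complex.I * x) ≠ 1 := by
  intro h
  rw [Complex.exp_eq_one_iff] at h
  obtain ⟨m, hm⟩ := h
  have h2 : (x : ℂ) = m * (2 * Real.pi) := by
    have := mul_right_cancel₀ Complex.I_ne_zero (a := (x : ℂ)) (c := m * (2 * Real.pi))
      (by rw [mul_comm, hm]; ring)
    exact this
  have h3 : x = m * (2 * Real.pi) := by exact_mod_cast h2
  have h4 : m ≠ 0 := by
    rintro rfl
    exact h0 (by rw [h3]; simp)
  have h5 : (1 : ℝ) ≤ |(m : ℝ)| := by exact_mod_cast Int.one_le_abs h4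
  rw [h3, abs_mul, abs_of_pos (by positivity : (0 : ℝ) < 2 * Real.pi)] at h1
  nlinarith [Real.pi_pos]

/-- **orthogonality of the modes** -/
lemma HH_val (hPQ : TwPair N (zeta N ^ k) P Q) (hk : Nat.Coprime k N) {j j' : ℕ × ℤ}
    (h1 : 1 ≤ j.1) (h2 : j.1 < N) (h1' : 1 ≤ j'.1) (h2' : j'.1 < N)
    (h3 : 0 < mass N k j) (h3' : 0 < mass N k j') (h4 : mass N k j / l < Real.pi)
    (h4' : mass N k j' / l < Real.pi) (z z' : ℂ) :
    HH B P l z (mass N k j / l) j.1 z' (mass N k j' / l) j'.1 =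
      if j = j' then (l : ℝ) ^ 2 * j.1 ^ 2 * N / 2 * (conj z * z').re else 0 := by
  have hl : (0 : ℝ) < l := by exact_mod_cast NeZero.pos l
  have hN : (N : ℝ) ≠ 0 := by exact_mod_cast NeZero.ne N
  have hc := trP hPQ (zk_ne hk (not_dvd h1 h2))
  have hc' := trP hPQ (zk_ne hk (not_dvd h1' h2'))
  have g1 : 0 < mass N k j / l := by positivity
  have g2 : 0 < mass N k j' / l := by positivity
  rw [HH_tr B _ _ _ _ _ _ hc hc', tr_PP hPQ hk h2 h2']
  -- the second term
  have e2 : z * z' * j.1 * j'.1 * trace (mt P ^ j.1 * mt P ^ j'.1) *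
      ∑ q : ZMod l, Complex.exp (Complex.I * ((mass N k j' / l + mass N k j / l : ℝ) : ℂ)) ^
        ((q - 1).val : ℕ) = 0 := by
    by_cases hd : N ∣ j.1 + j'.1
    · have e3 : Complex.exp (Complex.I * ((mass N k j' / l + mass N k j / l : ℝ) : ℂ)) ^ l = 1 := by
        have e4 : Complex.exp (Complex.I * ((mass N k j' / l + mass N k j / l : ℝ) : ℂ)) =
            Complex.exp (Complex.I * ((mass N k j' / l : ℝ) : ℂ)) *
            Complex.exp (Complex.I * ((mass N k j / l : ℝ) : ℂ)) := by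
          rw [← Complex.exp_add]; congr 1; push_cast; ring
        rw [e4, mul_pow, exp_div, exp_div, ← pow_add, ← pow_mul]
        have h5 := (Complex.isPrimitiveRoot_exp N (NeZero.ne N)).pow_eq_one_iff_dvd
          (k * (j'.1 + j.1))
        exact h5.2 (Dvd.dvd.mul_left (by rw [add_comm]; exact hd) _)
      rw [sum_ph e3, if_neg, mul_zero]
      refine exp_ne_one (by positivity) ?_
      rw [abs_of_pos (by positivity)]
      linarith
    · rw [← pow_add, trP hPQ (zk_ne hk hd), mul_zero, zero_mul]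
  rw [e2, Complex.zero_re, sub_zero]
  by_cases hcc : j.1 = j'.1
  · have e3 : Complex.exp (Complex.I * ((mass N k j' / l - mass N k j / l : ℝ) : ℂ)) ^ l = 1 := by
      have e4 : Complex.exp (Complex.I * ((mass N k j' / l - mass N k j / l : ℝ) : ℂ)) =
          Complex.exp (Complex.I * ((mass N k j' / l : ℝ) : ℂ)) /
          Complex.exp (Complex.I * ((mass N k j / l : ℝ) : ℂ)) := by
        rw [← Complex.exp_sub]; congr 1; push_cast; ring
      rw [e4, div_pow, exp_div, exp_div, hcc]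
      refine div_self (pow_ne_zero _ (pow_ne_zero _ ?_))
      unfold zeta
      exact Complex.exp_ne_zero _
    rw [sum_ph e3, if_pos hcc]
    by_cases hj : j = j'
    · subst hj
      rw [if_pos rfl, sub_self, Complex.ofReal_zero, mul_zero, Complex.exp_zero, if_pos rfl]
      have e5 : conj z * z' * (j.1 : ℂ) * j.1 * N * l = ((j.1 * j.1 * N * l : ℝ) : ℂ) *
          (conj z * z') := by
        push_cast; ring
      rw [e5, Complex.re_ofReal_mul]
      ring
    · rw [if_neg hj, if_neg, mul_zero, Complex.zero_re, mul_zero, zero_div]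
      refine exp_ne_one ?_ ?_
      · intro h5
        apply hj
        refine Prod.ext hcc ?_
        have h6 : mass N k j' = mass N k j := by
          have := sub_eq_zero.1 h5
          rwa [div_left_inj' hl.ne'] at this
        unfold mass at h6
        have h7 := mul_left_cancel₀ (by positivity : (2 * Real.pi : ℝ) ≠ 0) h6
        rw [hcc] at h7
        have h8 : (j'.2 : ℝ) = j.2 := by linarith
        exact_mod_cast h8.symm
      · rw [abs_lt]
        constructor <;> linarith [Real.pi_pos]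
  · rw [if_neg hcc, if_neg (fun h => hcc (by rw [h])), mul_zero, zero_mul, Complex.zero_re,
      mul_zero, zero_div]

end

end Run7.h630.ML
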