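import Mathlib
import Pool.Agent.Run7.h630.R2.Obs

/-!
# Expectations of bounded observables at weak coupling, along a general filter
-/

open MeasureTheory Matrix Filter Pool.Agent.N991.MK Pool.Agent.N989.MK
open scoped Matrix.Norms.Frobenius Topology
open Pool.Agent.H906R3.YM Pool.Agent.W793.YM Pool.Agent.TH618.YM Pool.Agent.N984.TW
open Pool.Agent.N109.T3 (nz gs)
open Pool.Agent.Run7.h871.LG (adc nab ipE gt emE qE Dat Wt)
open Pool.Agent.Run7.h630.R2
open Pool.Agent.Run7.h630 (R2.Zt)

namespace Run7.h630.ML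

set_option linter.unusedSectionVars false
set_option linter.unusedVariables false

noncomputable section

variable {N n : ℕ} [NeZero N] (B : Frame (SU N) n)
  {a b l : ℕ} [NeZero a] [NeZero b] [NeZero l] {P Q : SU N} {k : ℕ}

/-- bounded observables with a limit at weak coupling, along a filter -/
structure ObsL {ι : Type*} (L : Filter ι) (h : ι → ℝ) (P Q : SU N)
    (H : ι → (Lk a b l → SU N) → ℝ) (g : V1 a b l n → ℝ) : Prop where
  top : Tendsto h L atTop
  cont : ∀ i, Continuous (H i)
  bd : ∀ i U, |H i U| ≤ 1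
  invg : ∀ i γ U, H i (gt sr tgt γ U) = H i U
  invc : ∀ i z U, H i (cz N a b l z * U) = H i U
  contg : Continuous g
  bdg : ∀ x, |g x| ≤ 1
  invG : ∀ x f, g (x + nab B sr tgt (U0 P Q) f) = g x
  lim : ∀ x0, Tendsto (fun p : ι × V1 a b l n =>
    H p.1 (emE B (SU_closed N) (h p.1) p.2 * U0 P Q)) (L ×ˢ 𝓝 x0) (𝓝 (g x0))

variable [MeasurableSpace (SU N)] [BorelSpace (SU N)] (μ : Measure (SU N)) [IsProbabilityMeasure μ]
variable [μ.IsMulLeftInvariant] [μ.IsMulRightInvariant] [μ.IsInvInvariant]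
variable {ι : Type*} {L : Filter ι} [L.IsCountablyGenerated] {h : ι → ℝ}
  {H : ι → (Lk a b l → SU N) → ℝ} {g : V1 a b l n → ℝ}

lemma mkWtWL (hPQ : TwPair N (zeta N ^ k) P Q) (ho : ObsL B L h P Q H g) :
    WtW B (SU_closed N) sr tgt L (fun i => max (h i) 0)
      (fun i U => (1 + H i U) * wt k (max (h i) 0) U)
      (U0 P Q) (cz N a b l) (fun x => (1 + g x) * Real.exp (-(qE (Dc B P Q x) / 2)))
      (SS k : (Lk a b l → SU N) → ℝ) where
  top := tendsto_atTop_mono (fun β => le_max_left _ 0) ho.top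
  cont := fun i => (continuous_const.add (ho.cont _)).mul (wt_cont _)
  nonneg := fun i U => mul_nonneg (by linarith [(abs_le.1 (ho.bd i U)).1]) (wt_pos _ U).le
  invg := fun i g U => by rw [wt_gt, ho.invg]
  invc := fun i z U => by rw [wt_cz, ho.invc]
  bound := ⟨2 * (N : ℝ) ^ (a * b), by positivity, fun i U => by
    have h1 := wt_bound (k := k) (le_max_right (h i) 0) U
    have h2 := (abs_le.1 (ho.bd i U)).2
    have h3 := wt_pos (k := k) (max (h i) 0) U
    nlinarith⟩
  contW := by
    have h1 : Continuous fun x : V1 a b l n => qE (Dc B P Q x) :=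
      Pool.Agent.Run7.h871.LG.qE_cont.comp (Dc B P Q).continuous_of_finiteDimensional
    exact (continuous_const.add ho.contg).mul
      (Real.continuous_exp.comp ((h1.div_const 2).neg))
  nonnegW := fun x => mul_nonneg (by linarith [(abs_le.1 (ho.bdg x)).1]) (Real.exp_pos _).le
  invW := fun x f => by
    rw [ho.invG, map_add, Dc_nab B hPQ, add_zero]
  lim := fun x0 => by
    have hpos : ∀ᶠ p : ι × V1 a b l n in L ×ˢ 𝓝 x0, max (h p.1) 0 = h p.1 := by
      have := (ho.top.eventually_ge_atTop 0)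
      exact (tendsto_fst.eventually this).mono fun p hp => max_eq_left hp
    have h1 : Tendsto (fun p : ι × V1 a b l n => (max (h p.1) 0, p.2)) (L ×ˢ 𝓝 x0)
        (atTop ×ˢ 𝓝 x0) := by
      refine Tendsto.prodMk ?_ tendsto_snd
      exact (tendsto_atTop_mono (fun i => le_max_left (h i) 0) ho.top).comp tendsto_fst
    have h2 := (Pool.Agent.Run7.h871.LG.wt_lim (B := B) hPQ x0).comp h1
    have h3 : Tendsto (fun p : ι × V1 a b l n =>
        H p.1 (emE B (SU_closed N) (max (h p.1) 0) p.2 * U0 P Q)) (L ×ˢ 𝓝 x0) (𝓝 (g x0)) :=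
      (ho.lim x0).congr' (hpos.mono fun p hp => by beta_reduce; rw [hp])
    exact (h3.const_add 1).mul h2

/-- **the limit of the expectation of a bounded observable** -/
theorem obsL_lim (hPQ : TwPair N (zeta N ^ k) P Q)
    (hdet : 0 < LinearMap.det (La B P Q : V a b l n →ₗ[ℝ] _)) (ho : ObsL B L h P Q H g) :
    Tendsto (fun i => Et μ k (h i) (H i)) L (𝓝 (gE1 B P Q g)) := by
  have hG := SU_closed N
  have hcomp : CompactSpace (SU N) := isCompact_iff_compactSpace.1 hG.isCompact
  have h00 : SecondCountableTopology (UN N) := TopologicalSpace.Subtype.secondCountableTopology _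
  have hsc : SecondCountableTopology (SU N) := TopologicalSpace.Subtype.secondCountableTopology _
  have hquad := Pool.Agent.Run7.h871.LG.quad (a := a) (b := b) (l := l) (B := B) hPQ
  have h1 := mainW (μ := μ) (mkDat B (SU_closed N) hPQ hquad) (mkWtWL B hPQ ho)
  have hmax : Tendsto (fun i => max (h i) 0) L atTop :=
    tendsto_atTop_mono (fun i => le_max_left _ 0) ho.top
  have h2 := (Pool.Agent.Run7.h871.LG.main (μ := μ) (mkDat B (SU_closed N) hPQ hquad)
    (mkWt B (SU_closed N) (Pool.Agent.Run7.h871.LG.wt_lim (B := B) hPQ))).comp ho.top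
  have hp := gw_int_pos (a := a) (b := b) (l := l) B hPQ hdet
  have hi := gw_int (a := a) (b := b) (l := l) B hPQ hdet
  have hgi : Integrable fun x : V1 a b l n => g x * gw B P Q x :=
    hi.bdd_mul ho.contg.aestronglyMeasurable (Eventually.of_forall fun x => by
      rw [Real.norm_eq_abs]; exact ho.bdg x)
  have e1 : ∫ x : V1 a b l n, (1 + g x) * Real.exp (-(qE (Dc B P Q x) / 2)) *
      Real.exp (-(qE (dvc B P Q x) / 2)) =
      (∫ x : V1 a b l n, gw B P Q x) + ∫ x, g x * gw B P Q x := by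
    rw [← integral_add hi hgi]
    refine integral_congr_ae (Eventually.of_forall fun x => ?_)
    beta_reduce
    unfold gw
    rw [mul_assoc, ← Real.exp_add, add_mul, one_mul]
    congr 3 <;> ring
  have hN : (0 : ℝ) < N := by exact_mod_cast NeZero.pos N
  have hΓ : 0 < (∫ x, gs (n := n) x) := Pool.Agent.N839.T3.gs_int_pos
  have hV := gauss_V (a := a) (b := b) (l := l) B hPQ hdet.ne'
  rw [int_exp_qE] at hV
  have hVp : 0 < ∫ f : V a b l n,
      Real.exp (-(qE (dvc B P Q (nab B sr tgt (U0 P Q) f)) / 2)) := by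
    rw [hV, abs_of_pos hdet]
    positivity
  rw [e1] at h1
  have hK : 0 < (Fintype.card (Zf N a b) : ℝ) / Nat.card (S00 N a b l) *
        ((∫ x, gs (n := n) x) ^ Fintype.card (Si a b l) /
          (∫ x, gs (n := n) x) ^ Fintype.card (Lk a b l)) := by
    rw [Zf_card, S00_card]
    push_cast
    have h6 : (0 : ℝ) < (N : ℝ) ^ (2 * (a * b)) := by positivity
    have h7 : (0 : ℝ) < (N : ℝ) ^ (a * b) := by positivity
    exact mul_pos (div_pos h6 h7) (div_pos (pow_pos hΓ _) (pow_pos hΓ _))
  have h3 := h1.div h2 (by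
    refine (mul_pos hK (div_pos hp hVp)).ne')
  have e2 : (Fintype.card (Zf N a b) : ℝ) / Nat.card (S00 N a b l) *
        ((∫ x, gs (n := n) x) ^ Fintype.card (Si a b l) /
          (∫ x, gs (n := n) x) ^ Fintype.card (Lk a b l)) *
        (((∫ x : V1 a b l n, gw B P Q x) + ∫ x, g x * gw B P Q x) /
          ∫ f : V a b l n, Real.exp (-(qE (dvc B P Q (nab B sr tgt (U0 P Q) f)) / 2))) /
      ((Fintype.card (Zf N a b) : ℝ) / Nat.card (S00 N a b l) *
        ((∫ x, gs (n := n) x) ^ Fintype.card (Si a b l) /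
          (∫ x, gs (n := n) x) ^ Fintype.card (Lk a b l)) *
        ((∫ x : V1 a b l n, Real.exp (-((qE (Dc B P Q x) + qE (dvc B P Q x)) / 2))) /
          ∫ f : V a b l n, Real.exp (-(qE (dvc B P Q (nab B sr tgt (U0 P Q) f)) / 2)))) =
      1 + gE1 B P Q g := by
    have e3 : ∫ x : V1 a b l n, Real.exp (-((qE (Dc B P Q x) + qE (dvc B P Q x)) / 2)) =
      ∫ x : V1 a b l n, gw B P Q x := rfl
    rw [e3]
    unfold gE1
    generalize (∫ x : V1 a b l n, gw B P Q x) = I at hp
    generalize (∫ f : V a b l n,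
      Real.exp (-(qE (dvc B P Q (nab B sr tgt (U0 P Q) f)) / 2))) = J at hVp
    generalize (Fintype.card (Zf N a b) : ℝ) / Nat.card (S00 N a b l) *
        ((∫ x, gs (n := n) x) ^ Fintype.card (Si a b l) /
          (∫ x, gs (n := n) x) ^ Fintype.card (Lk a b l)) = K at hK
    have a1 := hp.ne'
    have a2 := hVp.ne'
    have a3 := hK.ne'
    field_simp
  rw [e2] at h3
  have h4 : Tendsto (fun i => (∫ U, (1 + H i U) * wt k (h i) U ∂(Measure.pi fun _ => μ)) /
      Zt μ l k (h i) a b) L (𝓝 (1 + gE1 B P Q g)) := by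
    refine h3.congr' ?_
    filter_upwards [ho.top.eventually_ge_atTop 0] with i hβ
    have hz : 0 < nz μ (h i) := Pool.Agent.N839.T3.nz_pos (h i)
    have hZ : 0 < Zt μ l k (h i) a b := Zt_pos hG μ (h i)
    show (∫ U, (1 + H i U) * wt k (max (h i) 0) U ∂(Measure.pi fun _ => μ)) *
      nz μ (max (h i) 0) ^ Fintype.card (Si a b l) / nz μ (max (h i) 0) ^ Fintype.card (Lk a b l) /
        ((∫ U, wt k (max (h i) 0) U ∂(Measure.pi fun _ => μ)) *
      nz μ (max (h i) 0) ^ Fintype.card (Si a b l) / nz μ (max (h i) 0) ^ Fintype.card (Lk a b l)) = _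
    rw [max_eq_left hβ]
    have e4 : ∫ U, wt k (h i) U ∂(Measure.pi fun _ => μ) = Zt μ l k (h i) a b := rfl
    rw [e4]
    have := hz.ne'
    field_simp
  have h5 := h4.sub_const 1
  rw [add_sub_cancel_left] at h5
  refine h5.congr fun i => ?_
  have hZ : 0 < Zt μ l k (h i) a b := Zt_pos hG μ (h i)
  have e1 : ∫ U, (1 + H i U) * wt k (h i) U ∂(Measure.pi fun _ => μ) =
      Zt μ l k (h i) a b + ∫ U, H i U * wt k (h i) U ∂(Measure.pi fun _ => μ) := by
    have i1 : Integrable (fun U : Lk a b l → SU N => wt k (h i) U) (Measure.pi fun _ => μ) :=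
      Pool.Agent.Run7.h871.LG.int_contE (wt_cont (h i))
    have i2 : Integrable (fun U : Lk a b l → SU N => H i U * wt k (h i) U)
        (Measure.pi fun _ => μ) :=
      Pool.Agent.Run7.h871.LG.int_contE ((ho.cont i).mul (wt_cont (h i)))
    unfold R2.Zt
    rw [← integral_add i1 i2]
    refine integral_congr_ae (Eventually.of_forall fun U => ?_)
    beta_reduce
    ring
  rw [e1]
  unfold Et
  field_simp
  ring

end

end Run7.h630.ML
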