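import Mathlib
import Pool.Agent.Run7.h630.ML.Mom
import Pool.Agent.Run7.h630.ML.ObsL

/-!
# Families of modes of the fibre loops
-/

open MeasureTheory Matrix Filter Pool.Agent.N991.MK Pool.Agent.N989.MK
open scoped Matrix.Norms.Frobenius Topology ComplexConjugate
open Pool.Agent.H906R3.YM Pool.Agent.W793.YM Pool.Agent.TH618.YM Pool.Agent.N984.TW
open Pool.Agent.N109.T3 (nz gs)
open Pool.Agent.Run7.h871.LG (adc nab ipE gt emE qE Dat Wt)
open Pool.Agent.Run7.h630.R2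
open Pool.Agent.Run7.h630 (R2.hh)

namespace Run7.h630.ML

set_option linter.unusedSectionVars false
set_option linter.unusedVariables false

noncomputable section

variable {N n : ℕ} [NeZero N] (B : Frame (SU N) n) {a b l : ℕ} [NeZero a] [NeZero b] [NeZero l]
  {P Q : SU N} {k : ℕ}

/-- the coefficients -/
abbrev Cf (J : Finset (ℕ × ℤ)) (a b : ℕ) := J → ZMod a × ZMod b → ℂ

/-- the linear functional of the fibre loops -/
def Xf (k : ℕ) (J : Finset (ℕ × ℤ)) (w : Cf J a b) (U : Lk a b l → SU N) : ℝ :=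
  ∑ j : J, ∑ u, ((w j u).re * Xo 1 (mass N k j / l) j.1.1 U u +
    (w j u).im * Xo Complex.I (mass N k j / l) j.1.1 U u)

variable (P) in
/-- the one form of the functional -/
def vf (k : ℕ) (J : Finset (ℕ × ℤ)) (w : Cf J a b) : V1 a b l n :=
  ∑ j : J, (vv B P 1 (mass N k j / l) j.1.1 (fun u => (w j u).re) +
    vv B P Complex.I (mass N k j / l) j.1.1 (fun u => (w j u).im))

lemma Xf_cont (J : Finset (ℕ × ℤ)) (w : Cf J a b) :
    Continuous fun U : Lk a b l → SU N => Xf k J w U := by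
  unfold Xf
  exact continuous_finsetSum _ fun j _ => continuous_finsetSum _ fun u _ =>
    (continuous_const.mul (Xo_cont _ _ _ _)).add (continuous_const.mul (Xo_cont _ _ _ _))

lemma Xf_gt (J : Finset (ℕ × ℤ)) (w : Cf J a b) (g : Si a b l → SU N) (U : Lk a b l → SU N) :
    Xf k J w (gt sr tgt g U) = Xf k J w U := by
  unfold Xf
  simp only [Xo_gt]

lemma Xf_cz (J : Finset (ℕ × ℤ)) (w : Cf J a b) (z : Zf N a b) (U : Lk a b l → SU N) :
    Xf k J w (cz N a b l z * U) = Xf k J w U := by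
  unfold Xf
  simp only [Xo_cz]

lemma ip_sum (J : Finset (ℕ × ℤ)) (w : Cf J a b) (x : V1 a b l n) :
    ipE (vf B P k J w) x = ∑ j : J,
      (ipE (vv B P 1 (mass N k j / l) j.1.1 (fun u => (w j u).re)) x +
        ipE (vv B P Complex.I (mass N k j / l) j.1.1 (fun u => (w j u).im)) x) := by
  unfold vf
  rw [ipE_sum_left]
  exact Finset.sum_congr rfl fun j _ => ipE_add_left _ _ _

lemma Xf_lim (hk : Nat.Coprime k N) (hPQ : TwPair N (zeta N ^ k) P Q) {J : Finset (ℕ × ℤ)}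
    (hJ : ∀ j ∈ J, 1 ≤ j.1 ∧ j.1 < N) (w0 : Cf J a b) (x0 : V1 a b l n) :
    Tendsto (fun p : (ℝ × Cf J a b) × V1 a b l n => Real.sqrt p.1.1 *
      Xf k J p.1.2 (emE B (SU_closed N) p.1.1 p.2 * U0 P Q)) ((atTop ×ˢ 𝓝 w0) ×ˢ 𝓝 x0)
      (𝓝 (ipE (vf B P k J w0) x0)) := by
  have hH : Tendsto (fun p : (ℝ × Cf J a b) × V1 a b l n => p.1.1)
      ((atTop ×ˢ 𝓝 w0) ×ˢ 𝓝 x0) atTop := tendsto_fst.comp tendsto_fst
  have hX : Tendsto (fun p : (ℝ × Cf J a b) × V1 a b l n => p.2)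
      ((atTop ×ˢ 𝓝 w0) ×ˢ 𝓝 x0) (𝓝 x0) := tendsto_snd
  have hW : Tendsto (fun p : (ℝ × Cf J a b) × V1 a b l n => p.1.2)
      ((atTop ×ˢ 𝓝 w0) ×ˢ 𝓝 x0) (𝓝 w0) := tendsto_snd.comp tendsto_fst
  have hw : ∀ j u, Tendsto (fun p : (ℝ × Cf J a b) × V1 a b l n => p.1.2 j u)
      ((atTop ×ˢ 𝓝 w0) ×ˢ 𝓝 x0) (𝓝 (w0 j u)) := fun j u =>
    ((continuous_apply u).tendsto _).comp (((continuous_apply j).tendsto _).comp hW)
  have key : ∀ (j : J) (u : ZMod a × ZMod b) (z : ℂ), Tendsto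
      (fun p : (ℝ × Cf J a b) × V1 a b l n => Real.sqrt p.1.1 * Xo z (mass N k j / l) j.1.1
        (emE B (SU_closed N) p.1.1 p.2 * U0 P Q) u) ((atTop ×ˢ 𝓝 w0) ×ˢ 𝓝 x0)
      (𝓝 (∑ q : ZMod l, ∑ p : ZMod l, ∑ α, R2.hh B P z (mass N k j / l) j.1.1 q α *
        x0 ((u, (p, q)), 2) α)) := fun j u z =>
    Xo_lim B (P := P) (Q := Q) hH hX
      (trP hPQ (zk_ne hk (not_dvd (hJ j.1 j.2).1 (hJ j.1 j.2).2))) z _ u
  have h1 : Tendsto (fun p : (ℝ × Cf J a b) × V1 a b l n =>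
      ∑ j : J, ∑ u, ((p.1.2 j u).re * (Real.sqrt p.1.1 * Xo 1 (mass N k j / l) j.1.1
        (emE B (SU_closed N) p.1.1 p.2 * U0 P Q) u) +
        (p.1.2 j u).im * (Real.sqrt p.1.1 * Xo Complex.I (mass N k j / l) j.1.1
        (emE B (SU_closed N) p.1.1 p.2 * U0 P Q) u))) ((atTop ×ˢ 𝓝 w0) ×ˢ 𝓝 x0)
      (𝓝 (ipE (vf B P k J w0) x0)) := by
    rw [ip_sum]
    refine tendsto_finsetSum _ fun j _ => ?_
    rw [ip_vv, ip_vv, ← Finset.sum_add_distrib]
    refine tendsto_finsetSum _ fun u _ => ?_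
    exact ((((Complex.continuous_re.tendsto _).comp (hw j u)).mul (key j u 1))).add
      (((Complex.continuous_im.tendsto _).comp (hw j u)).mul (key j u Complex.I))
  refine h1.congr fun p => ?_
  unfold Xf
  rw [Finset.mul_sum]
  refine Finset.sum_congr rfl fun j _ => ?_
  rw [Finset.mul_sum]
  refine Finset.sum_congr rfl fun u _ => ?_
  ring

lemma ip_nab' (hPQ : TwPair N (zeta N ^ k) P Q) {J : Finset (ℕ × ℤ)} (w : Cf J a b)
    (x : V1 a b l n) (g : V a b l n) :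
    ipE (vf B P k J w) (x + nab B sr tgt (U0 P Q) g) = ipE (vf B P k J w) x := by
  rw [ip_sum, ip_sum]
  refine Finset.sum_congr rfl fun j _ => ?_
  rw [ip_nab B hPQ, ip_nab B hPQ]

/-- the bounded functions of the functional are observables -/
lemma Xf_obs (hk : Nat.Coprime k N) (hPQ : TwPair N (zeta N ^ k) P Q) {J : Finset (ℕ × ℤ)}
    (hJ : ∀ j ∈ J, 1 ≤ j.1 ∧ j.1 < N) (w0 : Cf J a b) {φ : ℝ → ℝ} (hφ : Continuous φ)
    (hφ1 : ∀ t, |φ t| ≤ 1) :
    ObsL B (atTop ×ˢ 𝓝 w0 : Filter (ℝ × Cf J a b)) Prod.fst P Q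
      (fun p (U : Lk a b l → SU N) => φ (Real.sqrt p.1 * Xf k J p.2 U))
      (fun x => φ (ipE (vf B P k J w0) x)) where
  top := tendsto_fst
  cont := fun p => hφ.comp (continuous_const.mul (Xf_cont J p.2))
  bd := fun p U => hφ1 _
  invg := fun p g U => by rw [Xf_gt]
  invc := fun p z U => by rw [Xf_cz]
  contg := hφ.comp (ipE_cont2 _)
  bdg := fun x => hφ1 _
  invG := fun x g => by rw [ip_nab' B hPQ]
  lim := fun x0 => (hφ.tendsto _).comp (Xf_lim B hk hPQ hJ w0 x0)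

/-- the covariance of the families -/
lemma ip_vf (hk : Nat.Coprime k N) (hPQ : TwPair N (zeta N ^ k) P Q) {J : Finset (ℕ × ℤ)}
    (hJ : ∀ j ∈ J, 1 ≤ j.1 ∧ j.1 < N) (hm : ∀ j ∈ J, 0 < mass N k j)
    (hml : ∀ j ∈ J, mass N k j / l < Real.pi) (w g : Cf J a b) :
    ipE (vf B P k J w : V1 a b l n) (vf B P k J g) =
      ∑ j : J, (l : ℝ) ^ 2 * j.1.1 ^ 2 * N / 2 * ∑ u, (conj (w j u) * g j u).re := by
  rw [ip_sum]
  refine Finset.sum_congr rfl fun j _ => ?_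
  have h1 : ∀ v : V1 a b l n, ipE v (vf B P k J g) = ∑ j' : J,
      (ipE v (vv B P 1 (mass N k j' / l) j'.1.1 (fun u => (g j' u).re)) +
        ipE v (vv B P Complex.I (mass N k j' / l) j'.1.1 (fun u => (g j' u).im))) := by
    intro v
    unfold vf
    rw [ipE_sum_right]
    exact Finset.sum_congr rfl fun j' _ => ipE_add_right _ _ _
  rw [h1, h1, ← Finset.sum_add_distrib]
  have hv : ∀ (z z' : ℂ) (j' : J), HH B P l z (mass N k j / l) j.1.1 z' (mass N k j' / l) j'.1.1 =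
      if j = j' then (l : ℝ) ^ 2 * j.1.1 ^ 2 * N / 2 * (conj z * z').re else 0 := by
    intro z z' j'
    rw [HH_val B hPQ hk (hJ _ j.2).1 (hJ _ j.2).2 (hJ _ j'.2).1 (hJ _ j'.2).2 (hm _ j.2)
      (hm _ j'.2) (hml _ j.2) (hml _ j'.2)]
    by_cases h : j = j'
    · rw [if_pos h, if_pos (by rw [h])]
    · rw [if_neg h, if_neg (fun h' => h (Subtype.ext h'))]
  rw [Fintype.sum_eq_single j]
  · rw [ip_vv3, ip_vv3, ip_vv3, ip_vv3, hv, hv, hv, hv]
    simp only [if_true, map_one, one_mul, Complex.one_re, Complex.I_re, mul_one, mul_zero,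
      Complex.conj_I, neg_mul, Complex.I_mul_I, neg_neg, Complex.neg_re, neg_zero, zero_mul,
      add_zero, zero_add]
    rw [← mul_add, ← Finset.sum_add_distrib]
    congr 1
    refine Finset.sum_congr rfl fun u _ => ?_
    rw [Complex.mul_re, Complex.conj_re, Complex.conj_im]
    ring
  · intro j' hj'
    rw [ip_vv3, ip_vv3, ip_vv3, ip_vv3, hv, hv, hv, hv]
    simp only [if_neg (Ne.symm hj'), zero_mul, add_zero]

/-- the complex massive operator on the torus -/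
def KC (x0 : ℝ) (g : ZMod a × ZMod b → ℂ) (u : ZMod a × ZMod b) : ℂ :=
  (4 + x0) * g u - g (u + (1, 0)) - g (u - (1, 0)) - g (u + (0, 1)) - g (u - (0, 1))

lemma KC_re (x0 : ℝ) (g : ZMod a × ZMod b → ℂ) (u : ZMod a × ZMod b) :
    (KC x0 g u).re = Kb x0 (fun v => (g v).re) u := by
  unfold KC Kb
  simp [Complex.mul_re]

lemma KC_im (x0 : ℝ) (g : ZMod a × ZMod b → ℂ) (u : ZMod a × ZMod b) :
    (KC x0 g u).im = Kb x0 (fun v => (g v).im) u := by
  unfold KC Kb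
  simp [Complex.mul_im]

/-- the characteristic function of the families -/
theorem gE1_fam (hk : Nat.Coprime k N) (hPQ : TwPair N (zeta N ^ k) P Q)
    (hdet : 0 < LinearMap.det (La B P Q : V a b l n →ₗ[ℝ] _)) {J : Finset (ℕ × ℤ)}
    (hJ : ∀ j ∈ J, 1 ≤ j.1 ∧ j.1 < N) (hm : ∀ j ∈ J, 0 < mass N k j)
    (hml : ∀ j ∈ J, mass N k j / l < Real.pi) (w g : Cf J a b)
    (hg : ∀ j : J, KC (2 - 2 * Real.cos (mass N k j / l)) (g j) = w j) :
    gE1 B P Q (fun x : V1 a b l n => Real.cos (ipE (vf B P k J w) x)) =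
      Real.exp (-((∑ j : J, (l : ℝ) ^ 2 * j.1.1 ^ 2 * N / 2 *
        ∑ u, (conj (w j u) * g j u).re) / 2)) := by
  rw [chf B hPQ hdet (v := vf B P k J w) (y := vf B P k J g), ip_vf B hk hPQ hJ hm hml]
  intro i
  unfold vf
  rw [map_sum, map_sum, map_sum]
  refine Finset.sum_congr rfl fun j _ => ?_
  have hθ : Complex.exp (Complex.I * ((mass N k j / l : ℝ) : ℂ) * l) = (zeta N ^ k) ^ j.1.1 := by
    rw [← exp_div (l := l) j.1, ← Complex.exp_nat_mul]
    congr 1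
    ring
  have h1 : Kb (2 - 2 * Real.cos (mass N k j / l)) (fun u => (g j u).re) =
      fun u => (w j u).re := by
    funext u
    rw [← KC_re, hg]
  have h2 : Kb (2 - 2 * Real.cos (mass N k j / l)) (fun u => (g j u).im) =
      fun u => (w j u).im := by
    funext u
    rw [← KC_im, hg]
  rw [map_add, map_add, map_add, La_vv B hPQ hθ 1 h1, La_vv B hPQ hθ Complex.I h2]

end

end Run7.h630.ML
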