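import Mathlib

/-!
# The continuum limit of the massive lattice Green function in the plane: interface

Pieces for the hand-in MassiveContinuumLimit (pure analysis, only Mathlib).
-/

open MeasureTheory Filter Topology
open scoped FourierTransform SchwartzMap ContDiff

namespace Run7.h630.ML

noncomputable section

/-- the plane -/
abbrev E2 : Type := EuclideanSpace ℝ (Fin 2)

/-- the unit vectors -/
def ev (i : Fin 2) : E2 := EuclideanSpace.single i 1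

/-- the point `x / l` -/
def pt (l : ℕ) (x : ℤ × ℤ) : E2 := !₂[(x.1 : ℝ) / l, (x.2 : ℝ) / l]

/-- the second derivative in the direction `i` -/
def d2 (u : E2 → ℂ) (i : Fin 2) (x : E2) : ℂ := iteratedDeriv 2 (fun t : ℝ => u (x + t • ev i)) 0

/-- SOL: the equation `m² u - Δ u = F` in the plane. Proof: `u = 𝓕⁻¹ (𝓕 F / (m² + 4 π² |ξ|²))` is a
Schwartz function (multiplication by a smooth function of temperate growth); then Parseval. -/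
def S_SOL : Prop := ∀ m : ℝ, 0 < m → ∀ F : E2 → ℂ, ContDiff ℝ ∞ F → HasCompactSupport F →
  ∃ u : 𝓢(E2, ℂ), (∀ x, (m : ℂ) ^ 2 * u x - ∑ i, d2 u i x = F x) ∧
    ∫ x, starRingEnd ℂ (F x) * u x =
      ((∫ ξ, ‖𝓕 F ξ‖ ^ 2 / (4 * Real.pi ^ 2 * ‖ξ‖ ^ 2 + m ^ 2) : ℝ) : ℂ)

/-- TAY: consistency of the second difference (Taylor expansion to the order 4 along a line, the
derivatives of `u` decay faster than `(1 + |x|)^(-4)`, and `|h| ≤ 1`). -/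
def S_TAY : Prop := ∀ u : 𝓢(E2, ℂ), ∃ C : ℝ, 0 ≤ C ∧ ∀ h : ℝ, 0 < h → h ≤ 1 → ∀ (x : E2) (i : Fin 2),
  ‖u (x + h • ev i) + u (x - h • ev i) - 2 * u x - (h : ℂ) ^ 2 * d2 u i x‖ ≤
    C * h ^ 4 * ((1 + ‖x‖) ^ 4)⁻¹

/-- RIE: Riemann sums of continuous functions with compact support. -/
def S_RIE : Prop := ∀ f : E2 → ℂ, Continuous f → HasCompactSupport f →
  Tendsto (fun l : ℕ => ((l : ℂ) ^ 2)⁻¹ * ∑' x : ℤ × ℤ, f (pt l x)) atTop (𝓝 (∫ x, f x))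

/-- SUM: a bound of a lattice sum, uniform in the spacing. -/
def S_SUM : Prop := ∃ C : ℝ, 0 < C ∧ ∀ l : ℕ, 1 ≤ l →
  Summable (fun x : ℤ × ℤ => ((1 + ‖pt l x‖) ^ 4)⁻¹) ∧
    ∑' x : ℤ × ℤ, ((1 + ‖pt l x‖) ^ 4)⁻¹ ≤ C * l ^ 2

/-- the massive lattice operator on the torus -/
def Kt {e : ℕ} (x0 : ℝ) (g : ZMod e × ZMod e → ℂ) (u : ZMod e × ZMod e) : ℂ :=
  (4 + x0) * g u - g (u + (1, 0)) - g (u - (1, 0)) - g (u + (0, 1)) - g (u - (0, 1))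

/-- the restriction of a function of the plane to the torus of side `e`, with the spacing `1/l` -/
def rs (l e : ℕ) (F : E2 → ℂ) (u : ZMod e × ZMod e) : ℂ := F (pt l (u.1.valMinAbs, u.2.valMinAbs))

/-- STA: stability, for functions on the torus. Proof: `Re ∑ conj (w) K w ≥ x0 ∑ |w|²` (summation by
parts or `2 Re (conj a b) ≤ |a|² + |b|²`), hence `x0 ‖w‖ ≤ ‖K w‖` in `l²`, then Cauchy-Schwarz. -/
def S_STA : Prop := ∀ (e : ℕ) [NeZero e] (x0 : ℝ), 0 < x0 → ∀ f w : ZMod e × ZMod e → ℂ,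
  ‖∑ u, starRingEnd ℂ (f u) * w u‖ ≤
    x0⁻¹ * Real.sqrt (∑ u, ‖f u‖ ^ 2) * Real.sqrt (∑ u, ‖Kt x0 w u‖ ^ 2)

/-- LIM: the continuum limit of the massive Green function. Proof from SOL, TAY, RIE, SUM, STA:
`w = l² rs u` satisfies `K w = rs F + err` with `|err| ≤ C l^(-2) (1 + |x / l|)^(-4)`; at the sites
where the coordinates jump one has `|x| ≥ e/2 - 1 ≥ l²` and uses the decay of `u`. -/
def S_LIM : Prop := ∀ m : ℝ, 0 < m → ∀ F : E2 → ℂ, ContDiff ℝ ∞ F → HasCompactSupport F →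
  ∀ (e : ℕ → ℕ) [∀ l, NeZero (e l)], (∀ l, 2 * l ^ 2 + 4 ≤ e l) →
  ∀ g : (l : ℕ) → ZMod (e l) × ZMod (e l) → ℂ,
    (∀ᶠ l : ℕ in atTop, Kt (2 - 2 * Real.cos (m / l)) (g l) = rs l (e l) F) →
    Tendsto (fun l : ℕ => ((l : ℝ) ^ 4)⁻¹ *
      (∑ u : ZMod (e l) × ZMod (e l), starRingEnd ℂ (rs l (e l) F u) * g l u).re) atTop
      (𝓝 (∫ ξ, ‖𝓕 F ξ‖ ^ 2 / (4 * Real.pi ^ 2 * ‖ξ‖ ^ 2 + m ^ 2)))

/-- ASM: the assembly. -/
def S_ASM : Prop := S_SOL → S_TAY → S_RIE → S_SUM → S_STA → S_LIM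

end

end Run7.h630.ML
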