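import Pool.Agent.Run7.h630.ML.Unf
import Pool.Agent.Run7.h630.ML.Iface
import Pool.Agent.Run7.h593.ML.SOL
import Pool.Agent.Run7.h593.ML.SUM
import Pool.Agent.Run7.h593.ML.STA
import Pool.Agent.Run7.h796.ML.RIE
import Pool.Agent.Run7.h885.ML.TAY
import Pool.Agent.Run7.h885.ML.ASM

/-!
# The massive continuum limit: assembly
-/

open MeasureTheory Matrix Filter Topology
open scoped ComplexConjugate FourierTransform ContDiff
open Pool.Agent.Run7.h897.ST (S4 S6)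
open Run7.h4.YM (SU)
open Run7.h630.WL

namespace Run7.h630.ML

set_option linter.unusedSectionVars false
set_option linter.style.haveILetI false

noncomputable section

/-- the continuum limit of the lattice Green function -/
theorem t_LIM : S_LIM := Pool.Agent.Run7.h885.ML.t_ASM Run7.h593.ML.t_SOL
  Pool.Agent.Run7.h885.ML.t_TAY
  Run7.h796.ML.t_RIE Run7.h593.ML.t_SUM Run7.h593.ML.t_STA

/-! ### the coefficients on the torus -/

lemma KC_surj {a b : ℕ} [NeZero a] [NeZero b] {x0 : ℝ} (hx : 0 < x0)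
    (f : ZMod a × ZMod b → ℂ) : ∃ g, KC x0 g = f := by
  obtain ⟨g1, h1⟩ := Pool.Agent.Run7.h630.R2.Kb_surj hx (fun u => (f u).re)
  obtain ⟨g2, h2⟩ := Pool.Agent.Run7.h630.R2.Kb_surj hx (fun u => (f u).im)
  refine ⟨fun u => ⟨g1 u, g2 u⟩, funext fun u => Complex.ext ?_ ?_⟩
  · rw [KC_re]
    exact congrFun h1 u
  · rw [KC_im]
    exact congrFun h2 u

lemma KC_shift {a b : ℕ} {x0 : ℝ} (g : ZMod a × ZMod b → ℂ) (c : ℂ) (v u : ZMod a × ZMod b) :
    KC x0 (fun u => c * g (u - v)) u = c * KC x0 g (u - v) := by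
  unfold KC
  have e1 : u + (1, 0) - v = u - v + (1, 0) := by abel
  have e2 : u - (1, 0) - v = u - v - (1, 0) := by abel
  have e3 : u + (0, 1) - v = u - v + (0, 1) := by abel
  have e4 : u - (0, 1) - v = u - v - (0, 1) := by abel
  simp only [e1, e2, e3, e4]
  ring

lemma Kt_KC {e : ℕ} (x0 : ℝ) (g : ZMod e × ZMod e → ℂ) : Kt x0 g = KC x0 g := rfl

lemma pt_point (l : ℕ) (x : ℤ × ℤ) : pt l x = point l x := rfl

/-- a function of the centred coordinates -/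
lemma box_sum {e R : ℕ} [NeZero e] (he : 2 * R < e) (G : ℤ × ℤ → ℂ)
    (hG : ∀ x, x ∉ box R → G x = 0) (u : ZMod e × ZMod e) :
    (∑ x ∈ box R, if (((x.1 + R : ℤ) : ZMod e), ((x.2 + R : ℤ) : ZMod e)) = u then G x else 0) =
      G ((u.1 - (R : ZMod e)).valMinAbs, (u.2 - (R : ZMod e)).valMinAbs) := by
  obtain ⟨y, hy⟩ : ∃ y : ℤ × ℤ, y = ((u.1 - (R : ZMod e)).valMinAbs,
    (u.2 - (R : ZMod e)).valMinAbs) := ⟨_, rfl⟩
  have h1 : ((y.1 : ℤ) : ZMod e) = u.1 - R := by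
    rw [hy]; exact ZMod.coe_valMinAbs _
  have h2 : ((y.2 : ℤ) : ZMod e) = u.2 - R := by
    rw [hy]; exact ZMod.coe_valMinAbs _
  have hiff : ∀ x ∈ box R,
      ((((x.1 + R : ℤ) : ZMod e), ((x.2 + R : ℤ) : ZMod e)) = u ↔ x = y) := by
    intro x hx
    simp only [box, Finset.mem_product, Finset.mem_Icc] at hx
    constructor
    · intro h
      have a1 : ((x.1 : ℤ) : ZMod e) = u.1 - R := by
        rw [← h]; push_cast; ring
      have a2 : ((x.2 : ℤ) : ZMod e) = u.2 - R := by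
        rw [← h]; push_cast; ring
      rw [hy]
      refine Prod.ext ?_ ?_
      · exact ((ZMod.valMinAbs_spec _ _).2 ⟨a1.symm, by
          constructor <;> omega⟩).symm
      · exact ((ZMod.valMinAbs_spec _ _).2 ⟨a2.symm, by
          constructor <;> omega⟩).symm
    · intro h
      rw [h]
      refine Prod.ext ?_ ?_
      · push_cast; rw [h1]; ring
      · push_cast; rw [h2]; ring
  rw [← hy]
  by_cases hyb : y ∈ box R
  · rw [Finset.sum_eq_single y]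
    · rw [if_pos ((hiff y hyb).2 rfl)]
    · intro x hx hxy
      rw [if_neg (fun h => hxy ((hiff x hx).1 h))]
    · intro h; exact absurd hyb h
  · rw [hG y hyb]
    refine Finset.sum_eq_zero fun x hx => ?_
    rw [if_neg]
    intro h
    have := (hiff x hx).1 h
    exact hyb (this ▸ hx)

/-- the support in the box -/
lemma supp_box {F : E2 → ℂ} {ρ : ℝ} (hρ : ∀ x, F x ≠ 0 → ‖x‖ ≤ ρ) {l : ℕ} [NeZero l]
    (hl : ρ ≤ l) (x : ℤ × ℤ) (hx : x ∉ box (l ^ 2)) : F (point l x) = 0 := by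
  by_contra h
  have h1 := hρ _ h
  have hl0 : (0 : ℝ) < l := by exact_mod_cast NeZero.pos l
  have hc : ∀ i : Fin 2, |(point l x) i| ≤ l := fun i =>
    ((Real.norm_eq_abs _).symm.le.trans (PiLp.norm_apply_le _ i)).trans
      (h1.trans hl)
  have h2 := hc 0
  have h3 := hc 1
  have e0 : (point l x) 0 = (x.1 : ℝ) / l := by simp [point]
  have e1 : (point l x) 1 = (x.2 : ℝ) / l := by simp [point]
  rw [e0, abs_div, abs_of_pos hl0, div_le_iff₀ hl0] at h2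
  rw [e1, abs_div, abs_of_pos hl0, div_le_iff₀ hl0] at h3
  apply hx
  simp only [box, Finset.mem_product, Finset.mem_Icc, ← abs_le]
  constructor
  · have : ((|x.1| : ℤ) : ℝ) ≤ ((l ^ 2 : ℕ) : ℝ) := by
      push_cast; rw [sq]; exact h2
    exact_mod_cast this
  · have : ((|x.2| : ℤ) : ℝ) ≤ ((l ^ 2 : ℕ) : ℝ) := by
      push_cast; rw [sq]; exact h3
    exact_mod_cast this

/-! ### the coefficients of the test functions -/

section coef

variable {N : ℕ}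

/-- the factor -/
def kf (N : ℕ) (j : ℕ × ℤ) (l : ℕ) : ℝ := (j.1 * Real.sqrt N * l ^ 3)⁻¹

open Classical in
/-- the coefficients -/
def Wc (N k l : ℕ) (J : Finset (ℕ × ℤ)) (F : ℕ × ℤ → E2 → ℂ) : Jl N k l → ℤ × ℤ → ℂ :=
  fun j x => if j.1 ∈ J then (kf N j.1 l : ℂ) * F j.1 (point l x) else 0

lemma wR_eq {k l e : ℕ} [NeZero l] [NeZero e] (he : 2 * l ^ 2 + 4 ≤ e) {J : Finset (ℕ × ℤ)}
    {F : ℕ × ℤ → E2 → ℂ} (hF : ∀ j ∈ J, ∀ x, x ∉ box (l ^ 2) → F j (point l x) = 0)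
    (j : Jl N k l) (u : ZMod e × ZMod e) :
    (wR (Jl N k l) (l ^ 2) (Wc N k l J F) : Cf (Jl N k l) e e) j u =
      if j.1 ∈ J then (kf N j.1 l : ℂ) *
        rs l e (F j.1) (u - (((l ^ 2 : ℕ) : ZMod e), ((l ^ 2 : ℕ) : ZMod e))) else 0 := by
  unfold wR
  rw [box_sum (by omega) (Wc N k l J F j)]
  · unfold Wc rs
    rfl
  · intro x hx
    unfold Wc
    split_ifs with h
    · rw [hF _ h x hx, mul_zero]
    · rfl

/-- the field is a functional of the modes -/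
lemma field_eq {k l : ℕ} [NeZero l] {J : Finset (ℕ × ℤ)} (hJ : J ⊆ Jl N k l)
    {F : ℕ × ℤ → E2 → ℂ} (hF : ∀ j ∈ J, ∀ x, x ∉ box (l ^ 2) → F j (point l x) = 0) (β : ℝ)
    (V : LinkZ l → SU N) :
    ∑ j ∈ J, (field k β V j (F j)).re =
      Real.sqrt β * XZ k (Jl N k l) (l ^ 2) (Wc N k l J F) V := by
  classical
  unfold XZ
  rw [Finset.mul_sum]
  have h1 : ∀ j ∈ J, (field k β V j (F j)).re =
      Real.sqrt β * ∑ x ∈ box (l ^ 2), ((kf N j l : ℂ) * F j (point l x) * mode k V j x).re := by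
    intro j hj
    unfold field
    rw [tsum_eq_sum (s := box (l ^ 2)) (fun x hx => by rw [hF j hj x hx, zero_mul]),
      Complex.re_ofReal_mul, ← Complex.re_sum]
    have e1 : ∑ x ∈ box (l ^ 2), (kf N j l : ℂ) * F j (point l x) * mode k V j x =
        (kf N j l : ℂ) * ∑ x ∈ box (l ^ 2), F j (point l x) * mode k V j x := by
      rw [Finset.mul_sum]
      exact Finset.sum_congr rfl fun x _ => by ring
    rw [e1, Complex.re_ofReal_mul, ← mul_assoc]
    unfold kf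
    rw [div_eq_mul_inv]
  rw [Finset.sum_congr rfl h1]
  have h2 : ∀ j : Jl N k l, Real.sqrt β * ∑ x ∈ box (l ^ 2),
      (Wc N k l J F j x * mode k V j.1 x).re = if j.1 ∈ J then
        Real.sqrt β * ∑ x ∈ box (l ^ 2),
          ((kf N j.1 l : ℂ) * F j.1 (point l x) * mode k V j.1 x).re else 0 := by
    intro j
    unfold Wc
    split_ifs with h
    · rfl
    · simp
  simp only [h2]
  rw [Finset.sum_coe_sort (Jl N k l) (fun j => if j ∈ J then
        Real.sqrt β * ∑ x ∈ box (l ^ 2),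
          ((kf N j l : ℂ) * F j (point l x) * mode k V j x).re else 0), ← Finset.sum_filter]
  refine Finset.sum_congr ?_ fun _ _ => rfl
  ext j
  simp only [Finset.mem_filter]
  exact ⟨fun h => ⟨hJ h, h⟩, fun h => h.2⟩

/-- the covariance -/
lemma cov_eq {k l e : ℕ} [NeZero N] [NeZero l] [NeZero e] (he : 2 * l ^ 2 + 4 ≤ e)
    {J : Finset (ℕ × ℤ)} (hJ : J ⊆ Jl N k l) {F : ℕ × ℤ → E2 → ℂ}
    (hF : ∀ j ∈ J, ∀ x, x ∉ box (l ^ 2) → F j (point l x) = 0)
    (g : ℕ × ℤ → ZMod e × ZMod e → ℂ)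
    (hg : ∀ j ∈ J, KC (2 - 2 * Real.cos (mass N k j / l)) (g j) = rs l e (F j)) :
    ∃ g' : Cf (Jl N k l) e e,
      (∀ j : Jl N k l, KC (2 - 2 * Real.cos (mass N k j / l)) (g' j) =
        wR (Jl N k l) (l ^ 2) (Wc N k l J F) j) ∧
      (∑ j : Jl N k l, (l : ℝ) ^ 2 * j.1.1 ^ 2 * N / 2 *
          ∑ u, (conj ((wR (Jl N k l) (l ^ 2) (Wc N k l J F) : Cf (Jl N k l) e e) j u) *
            g' j u).re) / 2 =
        1 / 4 * ∑ j ∈ J, ((l : ℝ) ^ 4)⁻¹ * (∑ u, conj (rs l e (F j) u) * g j u).re := by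
  classical
  obtain ⟨v, hv⟩ : ∃ v : ZMod e × ZMod e,
    v = (((l ^ 2 : ℕ) : ZMod e), ((l ^ 2 : ℕ) : ZMod e)) := ⟨_, rfl⟩
  refine ⟨fun j u => if j.1 ∈ J then (kf N j.1 l : ℂ) * g j.1 (u - v) else 0, fun j => ?_, ?_⟩
  · funext u
    rw [wR_eq he hF j u, ← hv]
    by_cases h : j.1 ∈ J
    · simp only [if_pos h]
      rw [KC_shift, hg _ h]
    · simp only [if_neg h]
      unfold KC
      simp
  · have h1 : ∀ j : Jl N k l, (l : ℝ) ^ 2 * j.1.1 ^ 2 * N / 2 *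
          ∑ u, (conj ((wR (Jl N k l) (l ^ 2) (Wc N k l J F) : Cf (Jl N k l) e e) j u) *
            (if j.1 ∈ J then (kf N j.1 l : ℂ) * g j.1 (u - v) else 0)).re =
        if j.1 ∈ J then 1 / 2 * (((l : ℝ) ^ 4)⁻¹ * (∑ u, conj (rs l e (F j.1) u) * g j.1 u).re)
          else 0 := by
      intro j
      by_cases h : j.1 ∈ J
      · simp only [wR_eq he hF, ← hv, if_pos h]
        have hc : (1 : ℝ) ≤ (j.1.1 : ℝ) := by exact_mod_cast (mem_Jl.1 j.2).1.1
        have hN : (0 : ℝ) < N := by exact_mod_cast NeZero.pos N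
        have hl : (0 : ℝ) < l := by exact_mod_cast NeZero.pos l
        have e1 : ∀ u, (conj ((kf N j.1 l : ℂ) * rs l e (F j.1) (u - v)) *
            ((kf N j.1 l : ℂ) * g j.1 (u - v))).re = kf N j.1 l ^ 2 *
              (conj (rs l e (F j.1) (u - v)) * g j.1 (u - v)).re := by
          intro u
          have e2 : conj ((kf N j.1 l : ℂ) * rs l e (F j.1) (u - v)) *
            ((kf N j.1 l : ℂ) * g j.1 (u - v)) = ((kf N j.1 l ^ 2 : ℝ) : ℂ) *
              (conj (rs l e (F j.1) (u - v)) * g j.1 (u - v)) := by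
            rw [map_mul, Complex.conj_ofReal]
            push_cast
            ring
          rw [e2, Complex.re_ofReal_mul]
        simp only [e1]
        have e5 : ∑ i, (conj (rs l e (F j.1) (i - v)) * g j.1 (i - v)).re =
            ∑ u, (conj (rs l e (F j.1) u) * g j.1 u).re :=
          Equiv.sum_comp (Equiv.subRight v) (fun u => (conj (rs l e (F j.1) u) * g j.1 u).re)
        rw [← Finset.mul_sum, e5, Complex.re_sum]
        have e3 : (l : ℝ) ^ 2 * (j.1.1 : ℝ) ^ 2 * N / 2 * kf N j.1 l ^ 2 =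
            1 / 2 * ((l : ℝ) ^ 4)⁻¹ := by
          have e4 : Real.sqrt N ^ 2 = N := Real.sq_sqrt hN.le
          have hs : 0 < Real.sqrt N := Real.sqrt_pos.2 hN
          unfold kf
          rw [inv_pow, mul_pow, mul_pow, e4]
          field_simp
        rw [← mul_assoc, e3, mul_assoc]
      · simp only [if_neg h, mul_zero, Complex.zero_re, Finset.sum_const_zero]
    simp only [h1]
    rw [Finset.sum_coe_sort (Jl N k l) (fun j => if j ∈ J then
      1 / 2 * (((l : ℝ) ^ 4)⁻¹ * (∑ u, conj (rs l e (F j) u) * g j u).re) else 0),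
      ← Finset.sum_filter]
    have h2 : (Jl N k l).filter (fun j => j ∈ J) = J := by
      ext j
      simp only [Finset.mem_filter]
      exact ⟨fun h => h.2, fun h => ⟨hJ h, h⟩⟩
    rw [h2, ← Finset.mul_sum]
    ring

/-- the norm of the coefficients -/
lemma norm_wR {k l e : ℕ} [NeZero N] [NeZero l] [NeZero e] (he : 2 * l ^ 2 + 4 ≤ e)
    {J : Finset (ℕ × ℤ)} {F : ℕ × ℤ → E2 → ℂ}
    (hF : ∀ j ∈ J, ∀ x, x ∉ box (l ^ 2) → F j (point l x) = 0) {M : ℝ}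
    (hM : ∀ j ∈ J, ∀ x, ‖F j x‖ ≤ M) (hMl : M ≤ l) :
    ‖(wR (Jl N k l) (l ^ 2) (Wc N k l J F) : Cf (Jl N k l) e e)‖ ≤ l := by
  classical
  have hl : (1 : ℝ) ≤ l := by exact_mod_cast NeZero.one_le
  have hN : (1 : ℝ) ≤ N := by exact_mod_cast NeZero.one_le
  refine (pi_norm_le_iff_of_nonneg (by positivity)).2 fun j =>
    (pi_norm_le_iff_of_nonneg (by positivity)).2 fun u => ?_
  rw [wR_eq he hF]
  split_ifs with h
  · rw [norm_mul, Complex.norm_real]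
    have hc : (1 : ℝ) ≤ (j.1.1 : ℝ) := by exact_mod_cast (mem_Jl.1 j.2).1.1
    have h1 : (1 : ℝ) ≤ j.1.1 * Real.sqrt N * l ^ 3 := by
      have h2 : (1 : ℝ) ≤ Real.sqrt N := by
        rw [← Real.sqrt_one]; exact Real.sqrt_le_sqrt hN
      have h3 : (1 : ℝ) ≤ (l : ℝ) ^ 3 := one_le_pow₀ hl
      have h4 : (1 : ℝ) ≤ j.1.1 * Real.sqrt N := one_le_mul_of_one_le_of_one_le hc h2
      exact one_le_mul_of_one_le_of_one_le h4 h3
    have h5 : ‖kf N j.1 l‖ ≤ 1 := by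
      unfold kf
      rw [norm_inv, Real.norm_eq_abs, abs_of_pos (by linarith)]
      exact inv_le_one_of_one_le₀ h1
    have h6 := hM j.1 h (pt l ((u - (((l ^ 2 : ℕ) : ZMod e), ((l ^ 2 : ℕ) : ZMod e))).1.valMinAbs,
      (u - (((l ^ 2 : ℕ) : ZMod e), ((l ^ 2 : ℕ) : ZMod e))).2.valMinAbs))
    have h7 : 0 ≤ M := (norm_nonneg _).trans h6
    unfold rs
    calc ‖kf N j.1 l‖ * _ ≤ 1 * M := mul_le_mul h5 h6 (norm_nonneg _) zero_le_one
      _ ≤ l := by rw [one_mul]; exact hMl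
  · rw [norm_zero]; positivity

end coef

/-- the integral of the exponential -/
lemma int_exp {X : Type*} [MeasurableSpace X] {ν : Measure X} [IsProbabilityMeasure ν] {S : X → ℝ}
    (hS : Measurable S) : ∫ V, Complex.exp (Complex.I * (S V : ℝ)) ∂ν =
      ((∫ V, Real.cos (S V) ∂ν : ℝ) : ℂ) + ((∫ V, Real.sin (S V) ∂ν : ℝ) : ℂ) * Complex.I := by
  have h1 : ∀ V, Complex.exp (Complex.I * (S V : ℝ)) =
      ((Real.cos (S V) : ℝ) : ℂ) + ((Real.sin (S V) : ℝ) : ℂ) * Complex.I := by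
    intro V
    rw [mul_comm, Complex.exp_mul_I, Complex.ofReal_cos, Complex.ofReal_sin]
  have i1 : Integrable (fun V => ((Real.cos (S V) : ℝ) : ℂ)) ν :=
    Integrable.ofReal ((integrable_const (1 : ℝ)).mono'
      (Real.measurable_cos.comp hS).aestronglyMeasurable
      (Eventually.of_forall fun V => by rw [Real.norm_eq_abs]; exact Real.abs_cos_le_one _))
  have i2 : Integrable (fun V => ((Real.sin (S V) : ℝ) : ℂ)) ν :=
    Integrable.ofReal ((integrable_const (1 : ℝ)).mono'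
      (Real.measurable_sin.comp hS).aestronglyMeasurable
      (Eventually.of_forall fun V => by rw [Real.norm_eq_abs]; exact Real.abs_sin_le_one _))
  simp only [h1]
  rw [integral_add i1 (i2.mul_const _), integral_mul_const, integral_complex_ofReal,
    integral_complex_ofReal]

/-- **The massive continuum limit.** -/
theorem main (N k : ℕ) (hN : 2 ≤ N) (hk : Nat.Coprime k N) [MeasurableSpace (SU N)]
    [BorelSpace (SU N)] (μ : Measure (SU N)) [IsProbabilityMeasure μ] [μ.IsHaarMeasure] :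
    ∃ β₀ : ℕ → ℝ,
      (∀ (l : ℕ) [NeZero l] (β : ℝ), β₀ l ≤ β →
        ∃ ν : Measure (LinkZ l → SU N), IsLimit k μ β ν) ∧
      ∀ J : Finset (ℕ × ℤ), (∀ j ∈ J, 1 ≤ j.1 ∧ j.1 < N ∧ 0 < mass N k j) →
      ∀ F : ℕ × ℤ → E2 → ℂ, (∀ j ∈ J, ContDiff ℝ ∞ (F j) ∧ HasCompactSupport (F j)) →
      ∀ ε : ℝ, 0 < ε → ∃ l₀ : ℕ, ∀ (l : ℕ) [NeZero l], l₀ ≤ l → ∀ β : ℝ, β₀ l ≤ β →
      ∀ ν : Measure (LinkZ l → SU N), IsLimit k μ β ν →
        ‖∫ V, Complex.exp (Complex.I * ((∑ j ∈ J, (field k β V j (F j)).re : ℝ) : ℂ)) ∂ν -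
          Complex.exp ((-(1 / 4 * ∑ j ∈ J, ∫ ξ, ‖𝓕 (F j) ξ‖ ^ 2 /
            (4 * Real.pi ^ 2 * ‖ξ‖ ^ 2 + mass N k j ^ 2)) : ℝ) : ℂ)‖ ≤ ε := by
  haveI : NeZero N := ⟨by omega⟩
  -- the constants
  have h : ∀ l : ℕ, ∃ (β₀ : ℝ) (e : ℕ), 2 * l ^ 2 + 4 ≤ e ∧ ∀ [NeZero l] [NeZero e], ∀ β : ℝ,
      β₀ ≤ β → (∃ ν : Measure (LinkZ l → SU N), IsLimit k μ β ν) ∧
      ∀ ν : Measure (LinkZ l → SU N), IsLimit k μ β ν →
      ∀ W : Jl N k l → ℤ × ℤ → ℂ, ‖(wR (Jl N k l) (l ^ 2) W : Cf (Jl N k l) e e)‖ ≤ l →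
      ∀ g : Cf (Jl N k l) e e, (∀ j : Jl N k l, KC (2 - 2 * Real.cos (mass N k j / l)) (g j) =
        wR (Jl N k l) (l ^ 2) W j) →
      |∫ V, Real.cos (Real.sqrt β * XZ k (Jl N k l) (l ^ 2) W V) ∂ν -
        Real.exp (-((∑ j : Jl N k l, (l : ℝ) ^ 2 * j.1.1 ^ 2 * N / 2 *
          ∑ u, (conj ((wR (Jl N k l) (l ^ 2) W : Cf (Jl N k l) e e) j u) * g j u).re) / 2))| ≤
          2 / (l + 1) ∧
      |∫ V, Real.sin (Real.sqrt β * XZ k (Jl N k l) (l ^ 2) W V) ∂ν| ≤ 2 / (l + 1) := by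
    intro l
    rcases Nat.eq_zero_or_pos l with h0 | h0
    · subst h0
      exact ⟨0, 4, by norm_num, fun {h1} => absurd rfl h1.out⟩
    · haveI : NeZero l := ⟨by omega⟩
      obtain ⟨β₀, e, he, H⟩ := lay (l := l) hN hk μ
      exact ⟨β₀, e, he, fun {h1} {h2} => H⟩
  choose β₀ e he H using h
  haveI hne : ∀ l, NeZero (e l) := fun l => ⟨by have := he l; omega⟩
  refine ⟨β₀, fun l _ β hβ => (H l β hβ).1, fun J hJ F hF ε hε => ?_⟩
  -- the solutions
  have hx0 : ∀ j : ℕ × ℤ, 0 < mass N k j → ∀ᶠ l : ℕ in atTop,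
      0 < mass N k j / l ∧ mass N k j / l < Real.pi := by
    intro j hj
    have h1 : Tendsto (fun l : ℕ => mass N k j / l) atTop (𝓝 0) :=
      tendsto_const_div_atTop_nhds_zero_nat _
    filter_upwards [h1.eventually_lt_const Real.pi_pos, eventually_gt_atTop 0] with l h2 h3
    have : (0 : ℝ) < l := by exact_mod_cast h3
    exact ⟨by positivity, h2⟩
  have hg : ∀ (j : ℕ × ℤ) (l : ℕ), ∃ g : ZMod (e l) × ZMod (e l) → ℂ,
      (0 < mass N k j / l ∧ mass N k j / l < Real.pi) →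
        KC (2 - 2 * Real.cos (mass N k j / l)) g = rs l (e l) (F j) := by
    intro j l
    by_cases h1 : 0 < mass N k j / l ∧ mass N k j / l < Real.pi
    · have h2 : 0 < 2 - 2 * Real.cos (mass N k j / l) := by
        have h3 : Real.cos (mass N k j / l) < Real.cos 0 :=
          Real.cos_lt_cos_of_nonneg_of_le_pi le_rfl h1.2.le h1.1
        rw [Real.cos_zero] at h3
        linarith
      obtain ⟨g, hg⟩ := KC_surj h2 (rs l (e l) (F j))
      exact ⟨g, fun _ => hg⟩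
    · exact ⟨0, fun h2 => absurd h2 h1⟩
  choose g hg using hg
  -- the limit of the covariances
  have hlim : Tendsto (fun l : ℕ => Real.exp (-(1 / 4 * ∑ j ∈ J, ((l : ℝ) ^ 4)⁻¹ *
      (∑ u : ZMod (e l) × ZMod (e l), conj (rs l (e l) (F j) u) * g j l u).re))) atTop
      (𝓝 (Real.exp (-(1 / 4 * ∑ j ∈ J, ∫ ξ, ‖𝓕 (F j) ξ‖ ^ 2 /
            (4 * Real.pi ^ 2 * ‖ξ‖ ^ 2 + mass N k j ^ 2))))) := by
    refine (Real.continuous_exp.tendsto _).comp (Tendsto.neg (Tendsto.const_mul _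
      (tendsto_finsetSum _ fun j hj => ?_)))
    exact t_LIM (mass N k j) (hJ j hj).2.2 (F j) (hF j hj).1 (hF j hj).2 e he (fun l => g j l)
      ((hx0 j (hJ j hj).2.2).mono fun l hl => hg j l hl)
  -- the bounds of the test functions
  obtain ⟨M, hM⟩ : ∃ M : ℝ, ∀ j ∈ J, ∀ x, ‖F j x‖ ≤ M := by
    have h1 : ∀ j ∈ J, ∃ M : ℝ, ∀ x, ‖F j x‖ ≤ M := fun j hj =>
      (hF j hj).2.exists_bound_of_continuous (hF j hj).1.continuous
    choose! M hM using h1
    exact ⟨∑ j ∈ J, |M j|, fun j hj x => (hM j hj x).trans ((le_abs_self _).trans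
      (Finset.single_le_sum (f := fun j => |M j|) (fun i _ => abs_nonneg _) hj))⟩
  obtain ⟨ρ, hρ⟩ : ∃ ρ : ℝ, ∀ j ∈ J, ∀ x, F j x ≠ 0 → ‖x‖ ≤ ρ := by
    have h1 : ∀ j ∈ J, ∃ ρ : ℝ, ∀ x, F j x ≠ 0 → ‖x‖ ≤ ρ := fun j hj => by
      obtain ⟨ρ, hρ⟩ := (hF j hj).2.isBounded.subset_closedBall 0
      exact ⟨ρ, fun x hx => by
        have := hρ (subset_tsupport _ hx)
        rwa [mem_closedBall_zero_iff] at this⟩
    choose! ρ hρ using h1
    exact ⟨∑ j ∈ J, |ρ j|, fun j hj x hx => (hρ j hj x hx).trans ((le_abs_self _).trans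
      (Finset.single_le_sum (f := fun j => |ρ j|) (fun i _ => abs_nonneg _) hj))⟩
  -- the choice of `l₀`
  have ev : ∀ᶠ l : ℕ in atTop, (M ≤ l ∧ ρ ≤ l) ∧ (2 / ((l : ℝ) + 1) ≤ ε / 3) ∧
      (∀ j ∈ J, (|j.2| : ℤ) ≤ l ∧ 0 < mass N k j / l ∧ mass N k j / l < Real.pi) := by
    refine ((tendsto_natCast_atTop_atTop.eventually_ge_atTop M).and
      (tendsto_natCast_atTop_atTop.eventually_ge_atTop ρ)).and (Eventually.and ?_ ?_)
    · have h1 : Tendsto (fun l : ℕ => 2 / ((l : ℝ) + 1)) atTop (𝓝 0) :=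
        Tendsto.div_atTop tendsto_const_nhds
          (tendsto_atTop_add_const_right _ _ tendsto_natCast_atTop_atTop)
      exact h1.eventually_le_const (by positivity)
    · rw [Finset.eventually_all]
      intro j hj
      refine Eventually.and ?_ (hx0 j (hJ j hj).2.2)
      filter_upwards [eventually_ge_atTop j.2.natAbs] with l hl
      rw [Int.abs_eq_natAbs]
      exact_mod_cast hl
  obtain ⟨l₀, hl₀⟩ := eventually_atTop.1 (ev.and
    (Metric.tendsto_nhds.1 hlim (ε / 3) (by positivity)))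
  refine ⟨l₀, fun l _ hl β hβ ν hν => ?_⟩
  obtain ⟨⟨⟨c1, c2⟩, c3, c4⟩, c5⟩ := hl₀ l hl
  have hJl : J ⊆ Jl N k l := fun j hj => mem_Jl.2
    ⟨⟨(hJ j hj).1, (hJ j hj).2.1⟩, (c4 j hj).1, (hJ j hj).2.2, (c4 j hj).2.2⟩
  have hbox : ∀ j ∈ J, ∀ x, x ∉ box (l ^ 2) → F j (point l x) = 0 := fun j hj x hx =>
    supp_box (hρ j hj) c2 x hx
  obtain ⟨g', hg1, hg2⟩ := cov_eq (he l) hJl hbox (fun j => g j l)
    (fun j hj => hg j l (c4 j hj).2)
  obtain ⟨d1, d2⟩ := (H l β hβ).2 ν hν (Wc N k l J F) (norm_wR (he l) hbox hM c1) g' hg1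
  rw [hg2] at d1
  haveI := hν.prob
  simp only [field_eq hJl hbox]
  have hme : Measurable fun V : LinkZ l → SU N =>
      Real.sqrt β * XZ k (Jl N k l) (l ^ 2) (Wc N k l J F) V :=
    (continuous_const.mul (XZ_cont k _ _ _)).measurable
  rw [int_exp hme]
  rw [Real.dist_eq] at c5
  rw [← Complex.ofReal_exp]
  set A := ∫ V, Real.cos (Real.sqrt β * XZ k (Jl N k l) (l ^ 2) (Wc N k l J F) V) ∂ν
  set D := ∫ V, Real.sin (Real.sqrt β * XZ k (Jl N k l) (l ^ 2) (Wc N k l J F) V) ∂ν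
  set E := Real.exp (-(1 / 4 * ∑ j ∈ J, ∫ ξ, ‖𝓕 (F j) ξ‖ ^ 2 /
            (4 * Real.pi ^ 2 * ‖ξ‖ ^ 2 + mass N k j ^ 2)))
  have e1 : (A : ℂ) + D * Complex.I - E = ((A - E : ℝ) : ℂ) + ((D : ℝ) : ℂ) * Complex.I := by
    push_cast; ring
  rw [e1]
  refine (norm_add_le _ _).trans ?_
  rw [norm_mul, Complex.norm_I, mul_one, Complex.norm_real, Complex.norm_real, Real.norm_eq_abs,
    Real.norm_eq_abs]
  have h1 := abs_le.1 (d1.trans c3)
  have h2 := abs_lt.1 c5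
  have h3 := d2.trans c3
  have h4 : |A - E| ≤ ε / 3 + ε / 3 := by
    rw [abs_le]
    constructor <;> linarith [h1.1, h1.2, h2.1, h2.2]
  linarith

end

end Run7.h630.ML
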