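import Pool.Agent.Run7.h630.ML.Vol
import Pool.Agent.Run7.h630.ML.Fam

/-!
# The fields of the fibre loops as observables on the tori
-/

open MeasureTheory Matrix Filter Topology
open Pool.Agent.H906R3.YM (UN mt)
open Pool.Agent.TH618.YM (mt_mul)
open Pool.Agent.Run7.h897 (TW.XT TW.XE TW.rate TW.Cn TW.CrS TW.perZ TW.tz TW.rd TW.Lk TW.LkZ TW.tr)
open Pool.Agent.Run7.h897.ST (S4 S6 phi phi_cont phi_symm_cont mu6 mu6_haar mu6_prob)
open Run7.h4.YM (SU)
open Run7.h630.WL

namespace Run7.h630.ML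

set_option linter.unusedSectionVars false
set_option linter.style.haveILetI false

noncomputable section

variable {N l : ℕ} [NeZero N] [NeZero l]

/-- the sum over the box -/
def box (R : ℕ) : Finset (ℤ × ℤ) := Finset.Icc (-(R : ℤ)) R ×ˢ Finset.Icc (-(R : ℤ)) R

/-- the functional in the infinite volume -/
def XZ (k : ℕ) (J : Finset (ℕ × ℤ)) (R : ℕ) (W : J → ℤ × ℤ → ℂ) (V : LinkZ l → SU N) : ℝ :=
  ∑ j : J, ∑ x ∈ box R, (W j x * mode k V j.1 x).re

/-- the coefficients on the torus -/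
def wR {a b : ℕ} (J : Finset (ℕ × ℤ)) (R : ℕ) (W : J → ℤ × ℤ → ℂ) : Cf J a b := fun j u =>
  ∑ x ∈ box R, if (((x.1 + R : ℤ) : ZMod a), ((x.2 + R : ℤ) : ZMod b)) = u then W j x else 0

lemma loop_cont (x : ℤ × ℤ) (y : ZMod l) :
    Continuous fun V : LinkZ l → SU N => loop V x y := by
  unfold loop
  have h : ∀ L : List ℕ, Continuous fun V : LinkZ l → SU N =>
      (L.map fun t : ℕ => V (2, (x.1, x.2, (t : ZMod l), y))).prod := by
    intro L
    induction L with
    | nil => exact continuous_const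
    | cons t L ih =>
      simp only [List.map_cons, List.prod_cons]
      exact (continuous_apply _).mul ih
  exact h _

lemma mode_cont (k : ℕ) (j : ℕ × ℤ) (x : ℤ × ℤ) :
    Continuous fun V : LinkZ l → SU N => mode k V j x := by
  unfold mode
  refine continuous_finsetSum _ fun t _ => continuous_const.mul ?_
  have h1 : Continuous fun V : LinkZ l → SU N => (loop V x (1 + (t : ZMod l)) ^ j.1).1 :=
    continuous_subtype_val.comp ((loop_cont x _).pow j.1)
  exact h1.matrix_trace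

lemma XZ_cont (k : ℕ) (J : Finset (ℕ × ℤ)) (R : ℕ) (W : J → ℤ × ℤ → ℂ) :
    Continuous fun V : LinkZ l → SU N => XZ k J R W V := by
  unfold XZ
  exact continuous_finsetSum _ fun j _ => continuous_finsetSum _ fun x _ =>
    Complex.continuous_re.comp (continuous_const.mul (mode_cont k j.1 x))

lemma mode_loc {R : ℕ} (k : ℕ) (j : ℕ × ℤ) {x : ℤ × ℤ} (hx : x ∈ box R) {V V' : LinkZ l → SU N}
    (h : ∀ e : LinkZ l, e.1 = 2 → |e.2.1| ≤ R → |e.2.2.1| ≤ R → V e = V' e) :
    mode k V j x = mode k V' j x := by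
  simp only [box, Finset.mem_product, Finset.mem_Icc] at hx
  unfold mode
  refine Finset.sum_congr rfl fun t _ => ?_
  have h1 : loop V x (1 + (t : ZMod l)) = loop V' x (1 + (t : ZMod l)) := by
    unfold loop
    congr 1
    refine List.map_congr_left fun s _ => h _ rfl ?_ ?_
    · exact abs_le.2 hx.1
    · exact abs_le.2 hx.2
  rw [h1]

lemma XZ_loc (k : ℕ) (J : Finset (ℕ × ℤ)) (R : ℕ) (W : J → ℤ × ℤ → ℂ) (φ : ℝ → ℝ) (s : ℝ) :
    Loc2 R fun V : LinkZ l → SU N => φ (s * XZ k J R W V) := by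
  intro V V' h
  have h1 : XZ k J R W V = XZ k J R W V' := by
    unfold XZ
    exact Finset.sum_congr rfl fun j _ => Finset.sum_congr rfl fun x hx => by
      rw [mode_loc k j.1 hx h]
  show φ (s * XZ k J R W V) = φ (s * XZ k J R W V')
  rw [h1]

/-! ### the loops on the torus -/

section tor

variable {a b : ℕ} [NeZero a] [NeZero b]

/-- the loops which start at `0` and at `1` -/
lemma hp_lp (U : TW.Lk a b l → S6 N) (u : ZMod a × ZMod b) (q : ZMod l) (j : ℕ) :
    U ((u, (0, q)), 2) * Pool.Agent.Run7.h630.R2.hp U u q j =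
      ((List.range (j + 1)).map fun t : ℕ => U ((u, ((t : ZMod l), q)), 2)).prod := by
  induction j with
  | zero => simp [Pool.Agent.Run7.h630.R2.hp]
  | succ j ih =>
    rw [List.range_succ, List.map_append, List.prod_append, ← ih]
    show _ * (_ * _) = _
    rw [← mul_assoc]
    simp only [List.map_cons, List.map_nil, List.prod_cons, List.prod_nil, mul_one]
    have h1 : ((j + 1 : ℕ) : ZMod l) = 1 + (j : ZMod l) := by push_cast; ring
    rw [h1]

lemma lp_hol (U : TW.Lk a b l → S6 N) (u : ZMod a × ZMod b) (q : ZMod l) :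
    ((List.range l).map fun t : ℕ => U ((u, ((t : ZMod l), q)), 2)).prod =
      U ((u, (0, q)), 2) * Pool.Agent.Run7.h630.R2.hol U u q * (U ((u, (0, q)), 2))⁻¹ := by
  have h1 := hp_lp U u q l
  rw [List.range_succ, List.map_append, List.prod_append] at h1
  simp only [List.map_cons, List.map_nil, List.prod_cons, List.prod_nil, mul_one,
    ZMod.natCast_self] at h1
  unfold Pool.Agent.Run7.h630.R2.hol
  rw [h1, mul_inv_cancel_right]

/-- the complex modes on the torus -/
def ZZ (k : ℕ) (j : ℕ × ℤ) (U : TW.Lk a b l → S6 N) (u : ZMod a × ZMod b) : ℂ :=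
  ∑ q : ZMod l, Pool.Agent.Run7.h630.R2.ph 1 (mass N k j / l) q *
    trace (mt (Pool.Agent.Run7.h630.R2.hol U u q ^ j.1))

lemma Xo_ZZ (z : ℂ) (k : ℕ) (j : ℕ × ℤ) (U : TW.Lk a b l → S6 N) (u : ZMod a × ZMod b) :
    Pool.Agent.Run7.h630.R2.Xo z (mass N k j / l) j.1 U u = (z * ZZ k j U u).re := by
  unfold Pool.Agent.Run7.h630.R2.Xo ZZ
  rw [Finset.mul_sum, Complex.re_sum]
  refine Finset.sum_congr rfl fun q _ => ?_
  congr 1
  unfold Pool.Agent.Run7.h630.R2.ph
  ring

lemma Xf_ZZ (k : ℕ) (J : Finset (ℕ × ℤ)) (w : Cf J a b) (U : TW.Lk a b l → S6 N) :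
    Xf k J w U = ∑ j : J, ∑ u, (w j u * ZZ k j.1 U u).re := by
  unfold Xf
  refine Finset.sum_congr rfl fun j _ => Finset.sum_congr rfl fun u _ => ?_
  rw [Xo_ZZ, Xo_ZZ, one_mul]
  simp only [Complex.mul_re, Complex.I_re, Complex.I_im]
  ring

lemma sum_shift (F : ZMod l → ℂ) :
    ∑ t ∈ Finset.range l, F (1 + (t : ZMod l)) = ∑ q : ZMod l, F q := by
  rw [← Equiv.sum_comp (Equiv.addLeft (1 : ZMod l)) F]
  exact (Finset.sum_bij (fun (x : ZMod l) _ => x.val)
      (fun x _ => Finset.mem_range.2 (ZMod.val_lt x))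
      (fun x _ y _ h => ZMod.val_injective l h)
      (fun i hi => ⟨(i : ZMod l), Finset.mem_univ _,
        ZMod.val_natCast_of_lt (Finset.mem_range.1 hi)⟩)
      (fun x _ => by
        show F (1 + x) = _
        congr 2
        exact (ZMod.natCast_zmod_val x).symm)).symm

/-- the modes of the translated periodic extension -/
lemma mode_eq (k : ℕ) (j : ℕ × ℤ) (R : ℕ) (U : TW.Lk a b l → S6 N) (x : ℤ × ℤ) :
    mode k (fun e : LinkZ l => (phi N).symm (TW.perZ U (TW.tz R R (lz l e)))) j x =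
      ZZ k j U (((x.1 + R : ℤ) : ZMod a), ((x.2 + R : ℤ) : ZMod b)) := by
  obtain ⟨u, hu⟩ : ∃ u : ZMod a × ZMod b, u = (((x.1 + R : ℤ) : ZMod a),
    ((x.2 + R : ℤ) : ZMod b)) := ⟨_, rfl⟩
  have h1 : ∀ q : ZMod l,
      loop (fun e : LinkZ l => (phi N).symm (TW.perZ U (TW.tz R R (lz l e)))) x q =
        (phi N).symm (U ((u, (0, q)), 2) * Pool.Agent.Run7.h630.R2.hol U u q *
          (U ((u, (0, q)), 2))⁻¹) := by
    intro q
    rw [← lp_hol, map_list_prod, List.map_map]
    unfold loop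
    congr 1
    refine List.map_congr_left fun s _ => ?_
    rw [hu]
    rfl
  have h2 : ∀ (q : ZMod l) (c : ℕ),
      trace (loop (fun e : LinkZ l => (phi N).symm (TW.perZ U (TW.tz R R (lz l e)))) x q ^ c).1 =
        trace (mt (Pool.Agent.Run7.h630.R2.hol U u q ^ c)) := by
    intro q c
    rw [h1, ← map_pow, conj_pow]
    show trace (mt (U ((u, (0, q)), 2) * Pool.Agent.Run7.h630.R2.hol U u q ^ c *
          (U ((u, (0, q)), 2))⁻¹)) = _
    have h3 : mt (U ((u, (0, q)), 2))⁻¹ * mt (U ((u, (0, q)), 2)) = 1 := by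
      rw [← mt_mul, inv_mul_cancel]; rfl
    rw [mt_mul, mt_mul, trace_mul_comm, ← mul_assoc, h3, one_mul]
  unfold mode ZZ
  rw [← hu, ← sum_shift (fun q : ZMod l => Pool.Agent.Run7.h630.R2.ph 1 (mass N k j / l) q *
    trace (mt (Pool.Agent.Run7.h630.R2.hol U u q ^ j.1)))]
  refine Finset.sum_congr rfl fun t ht => ?_
  rw [h2]
  congr 1
  unfold Pool.Agent.Run7.h630.R2.ph
  rw [one_mul, add_sub_cancel_left, ZMod.val_natCast_of_lt (Finset.mem_range.1 ht)]
  congr 1
  push_cast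
  ring

/-- the functional on the torus -/
lemma XZ_eq (k : ℕ) (J : Finset (ℕ × ℤ)) (R : ℕ) (W : J → ℤ × ℤ → ℂ) (φ : ℝ → ℝ) (s : ℝ)
    (U : TW.Lk a b l → S6 N) :
    tob R (fun V : LinkZ l → SU N => φ (s * XZ k J R W V)) U = φ (s * Xf k J (wR J R W) U) := by
  unfold tob F6
  show φ (s * XZ k J R W (fun e : LinkZ l => (phi N).symm (TW.perZ U (TW.tz R R (lz l e))))) = _
  congr 2
  unfold XZ
  rw [Xf_ZZ]
  refine Finset.sum_congr rfl fun j _ => ?_
  simp only [mode_eq]
  unfold wR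
  simp only [Finset.sum_mul, Complex.re_sum]
  rw [Finset.sum_comm]
  refine Finset.sum_congr rfl fun x _ => ?_
  rw [Fintype.sum_eq_single (((x.1 + R : ℤ) : ZMod a), ((x.2 + R : ℤ) : ZMod b))]
  · rw [if_pos rfl]
  · intro u hu
    rw [if_neg (Ne.symm hu), zero_mul, Complex.zero_re]

end tor

end

end Run7.h630.ML
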