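import Pool.Agent.Run7.h630.ML.Obv
import Pool.Agent.Run7.h897.TW.Fib2

/-!
# Uniformity in the coefficients, and the result for one torus size `l`
-/

open MeasureTheory Matrix Filter Topology
open scoped ComplexConjugate
open Pool.Agent.H906R3.YM (UN mt Frame)
open Pool.Agent.Run7.h897 (TW.rate TW.Lk)
open Pool.Agent.Run7.h897.ST (S4 S6 phi mu6 mu6_haar mu6_prob)
open Pool.Agent.Run7.h630 (R2.TwPair R2.zeta R2.gE1 R2.Et R2.La R2.SU)
open Pool.Agent.Run7.h871.LG (ipE)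
open Run7.h4.YM (SU)
open Run7.h630.WL

namespace Run7.h630.ML

set_option linter.unusedSectionVars false
set_option linter.style.haveILetI false

noncomputable section

/-- continuous convergence is uniform on compact sets -/
lemma unif {X : Type*} [TopologicalSpace X] {K : Set X} (hK : IsCompact K) {F : ℝ → X → ℝ}
    {G : X → ℝ} (h : ∀ x, Tendsto (fun p : ℝ × X => F p.1 p.2) (atTop ×ˢ 𝓝 x) (𝓝 (G x)))
    {ε : ℝ} (hε : 0 < ε) : ∃ β₁ : ℝ, ∀ β, β₁ ≤ β → ∀ x ∈ K, |F β x - G x| ≤ ε := by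
  have h1 : ∀ x : X, ∃ (b : ℝ) (U : Set X), U ∈ 𝓝 x ∧ ∀ β, b ≤ β → ∀ y ∈ U,
      |F β y - G x| < ε / 2 := by
    intro x
    have h2 := (Metric.tendsto_nhds.1 (h x)) (ε / 2) (by positivity)
    rw [eventually_prod_iff] at h2
    obtain ⟨p, hp, q, hq, hpq⟩ := h2
    obtain ⟨b, hb⟩ := eventually_atTop.1 hp
    refine ⟨b, {y | q y}, hq, fun β hβ y hy => ?_⟩
    have := hpq (hb β hβ) hy
    rwa [Real.dist_eq] at this
  choose b U hU hb using h1
  obtain ⟨t, -, ht⟩ := hK.elim_nhds_subcover U fun x _ => hU x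
  refine ⟨∑ x ∈ t, |b x|, fun β hβ x hx => ?_⟩
  have h3 := ht hx
  simp only [Set.mem_iUnion] at h3
  obtain ⟨y, hy, hxy⟩ := h3
  have h4 : b y ≤ β := (le_abs_self _).trans
    ((Finset.single_le_sum (f := fun x => |b x|) (fun i _ => abs_nonneg _) hy).trans hβ)
  have h5 := hb y β h4 x hxy
  -- the limit at `x`
  have h6 : |G x - G y| ≤ ε / 2 := by
    have h7 : Tendsto (fun β => F β x) atTop (𝓝 (G x)) :=
      (h x).comp (tendsto_id.prodMk tendsto_const_nhds)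
    refine le_of_tendsto ((h7.sub_const (G y)).abs) ((eventually_ge_atTop (b y)).mono
      fun β' hβ' => (hb y β' hβ' x hxy).le)
  have h8 := abs_lt.1 h5
  have h9 := abs_le.1 h6
  rw [abs_le]
  constructor <;> linarith [h8.1, h8.2, h9.1, h9.2]

variable {N : ℕ} [NeZero N]

/-- the modes which are used on the torus of side `l` -/
def Jl (N k l : ℕ) : Finset (ℕ × ℤ) := by
  classical
  exact ((Finset.range N) ×ˢ Finset.Icc (-(l : ℤ)) l).filter fun j =>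
    1 ≤ j.1 ∧ 0 < mass N k j ∧ mass N k j / l < Real.pi

lemma mem_Jl {N k l : ℕ} {j : ℕ × ℤ} : j ∈ Jl N k l ↔ (1 ≤ j.1 ∧ j.1 < N) ∧ |j.2| ≤ l ∧
    0 < mass N k j ∧ mass N k j / l < Real.pi := by
  unfold Jl
  simp only [Finset.mem_filter, Finset.mem_product, Finset.mem_range, Finset.mem_Icc, abs_le]
  tauto

variable {l : ℕ} [NeZero l]

section fin

variable [MeasurableSpace (S6 N)] [BorelSpace (S6 N)] (μ : Measure (S6 N))
  [IsProbabilityMeasure μ] [μ.IsMulLeftInvariant] [μ.IsMulRightInvariant] [μ.IsInvInvariant]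

/-- uniformity in the coefficients on one torus -/
theorem fin_unif (hN : 2 ≤ N) {k : ℕ} (hk : Nat.Coprime k N) {n : ℕ} (B : Frame (S6 N) n)
    {P Q : S6 N} (hPQ : R2.TwPair N (R2.zeta N ^ k) P Q) {J : Finset (ℕ × ℤ)}
    (hJ : ∀ j ∈ J, 1 ≤ j.1 ∧ j.1 < N) {φ : ℝ → ℝ} (hφ : Continuous φ) (hφ1 : ∀ t, |φ t| ≤ 1)
    (a b : ℕ) [NeZero a] [NeZero b] (r : ℝ) {ε : ℝ} (hε : 0 < ε) :
    ∃ β₂ : ℝ, ∀ β, β₂ ≤ β → ∀ w : Cf J a b, ‖w‖ ≤ r →
      |R2.Et μ k β (fun U : TW.Lk a b l → S6 N => φ (Real.sqrt β * Xf k J w U)) -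
        R2.gE1 B P Q (fun x : Pool.Agent.Run7.h630.R2.V1 a b l n => φ (ipE (vf B P k J w) x))| ≤ ε := by
  have : NeZero (2 * a) := ⟨by have := NeZero.ne a; omega⟩
  have hdet := (Pool.Agent.Run7.h897.TW.det_sharp (n := n) B hN l hPQ a (2 * a) b rfl).1
  obtain ⟨β₂, h⟩ := unif (X := Cf J a b) (isCompact_closedBall 0 r)
    (F := fun β w => R2.Et μ k β
      (fun U : TW.Lk a b l → S6 N => φ (Real.sqrt β * Xf k J w U)))
    (G := fun w => R2.gE1 B P Q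
      (fun x : Pool.Agent.Run7.h630.R2.V1 a b l n => φ (ipE (vf B P k J w) x)))
    (fun w => obsL_lim B μ hPQ hdet (Xf_obs B hk hPQ hJ w hφ hφ1)) hε
  exact ⟨β₂, fun β hβ w hw => h β hβ w (by rw [mem_closedBall_zero_iff]; exact hw)⟩

end fin

variable [MeasurableSpace (S4 N)] [BorelSpace (S4 N)]

/-- **the result for one `l`** -/
theorem lay (hN : 2 ≤ N) {k : ℕ} (hk : Nat.Coprime k N) (μ : Measure (SU N))
    [IsProbabilityMeasure μ] [μ.IsHaarMeasure] :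
    ∃ (β₀ : ℝ) (e : ℕ), 2 * l ^ 2 + 4 ≤ e ∧ ∀ [NeZero e], ∀ β : ℝ, β₀ ≤ β →
      (∃ ν : Measure (LinkZ l → SU N), IsLimit k μ β ν) ∧
      ∀ ν : Measure (LinkZ l → SU N), IsLimit k μ β ν →
      ∀ W : Jl N k l → ℤ × ℤ → ℂ, ‖(wR (Jl N k l) (l ^ 2) W : Cf (Jl N k l) e e)‖ ≤ l →
      ∀ g : Cf (Jl N k l) e e, (∀ j : Jl N k l, KC (2 - 2 * Real.cos (mass N k j / l)) (g j) =
        wR (Jl N k l) (l ^ 2) W j) →
      |∫ V, Real.cos (Real.sqrt β * XZ k (Jl N k l) (l ^ 2) W V) ∂ν -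
        Real.exp (-((∑ j : Jl N k l, (l : ℝ) ^ 2 * j.1.1 ^ 2 * N / 2 *
          ∑ u, (conj ((wR (Jl N k l) (l ^ 2) W : Cf (Jl N k l) e e) j u) * g j u).re) / 2))| ≤
          2 / (l + 1) ∧
      |∫ V, Real.sin (Real.sqrt β * XZ k (Jl N k l) (l ^ 2) W V) ∂ν| ≤ 2 / (l + 1) := by
  letI : MeasurableSpace (S6 N) := borel _
  haveI : BorelSpace (S6 N) := ⟨rfl⟩
  haveI := mu6_prob μ
  haveI := mu6_haar μ
  haveI := Pool.Agent.Run7.h897.ST.right_inv'' (mu6 μ)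
  haveI := Pool.Agent.Run7.h897.ST.inv_inv'' (mu6 μ)
  obtain ⟨P, Q, hPQ⟩ := Pool.Agent.Run7.h871.TP.exists_twPair N hk
  obtain ⟨n, ⟨B⟩⟩ := Pool.Agent.TH618.YM.exists_frame (Pool.Agent.Run7.h630.R2.SU_closed N)
  have hl : (0 : ℝ) < l := by exact_mod_cast NeZero.pos l
  have hη : (0 : ℝ) < 1 / (l + 1) := by positivity
  obtain ⟨β₁, h1⟩ := vol (l := l) hN hk μ
  obtain ⟨n₀, h2⟩ := h1 (l ^ 2) (1 / (l + 1)) hη
  obtain ⟨e, he, hee⟩ : ∃ e : ℕ, max n₀ (2 * l ^ 2 + 4) ≤ e ∧ Even e :=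
    ⟨2 * max n₀ (2 * l ^ 2 + 4), by omega, even_two_mul _⟩
  have he0 : NeZero e := ⟨by have := (le_max_right _ _).trans he; omega⟩
  obtain ⟨β₂, h3⟩ := fin_unif (l := l) (mu6 μ) hN hk B hPQ
    (J := Jl N k l) (fun j hj => (mem_Jl.1 hj).1) Real.continuous_cos
    (fun t => Real.abs_cos_le_one t) e e l hη
  obtain ⟨β₃, h4⟩ := fin_unif (l := l) (mu6 μ) hN hk B hPQ
    (J := Jl N k l) (fun j hj => (mem_Jl.1 hj).1) Real.continuous_sin
    (fun t => Real.abs_sin_le_one t) e e l hη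
  obtain ⟨β₄, h5⟩ := limit_exists N l k hN hk μ
  have : NeZero (2 * e) := ⟨by have := NeZero.ne e; omega⟩
  have hdet := (Pool.Agent.Run7.h897.TW.det_sharp (n := n) B hN l hPQ e (2 * e) e rfl).1
  refine ⟨max (max β₁ β₂) (max β₃ β₄), e, (le_max_right _ _).trans he, fun β hβ => ?_⟩
  have b1 : β₁ ≤ β := ((le_max_left _ _).trans (le_max_left _ _)).trans hβ
  have b2 : β₂ ≤ β := ((le_max_right _ _).trans (le_max_left _ _)).trans hβ
  have b3 : β₃ ≤ β := ((le_max_left _ _).trans (le_max_right _ _)).trans hβ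
  have b4 : β₄ ≤ β := ((le_max_right _ _).trans (le_max_right _ _)).trans hβ
  refine ⟨h5 β b4, fun ν hν W hW g hg => ?_⟩
  have key : ∀ {φ : ℝ → ℝ}, Continuous φ → (∀ t, |φ t| ≤ 1) →
      |∫ V, φ (Real.sqrt β * XZ k (Jl N k l) (l ^ 2) W V) ∂ν -
        R2.Et (mu6 μ) k β (fun U : TW.Lk e e l → S6 N =>
          φ (Real.sqrt β * Xf k (Jl N k l) (wR (Jl N k l) (l ^ 2) W) U))| ≤ 1 / (l + 1) := by
    intro φ hφ hφ1
    have h6 := h2 β b1 ν hν (fun V => φ (Real.sqrt β * XZ k (Jl N k l) (l ^ 2) W V))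
      (hφ.comp (continuous_const.mul (XZ_cont k _ _ W))) (fun V => hφ1 _)
      (XZ_loc k (Jl N k l) (l ^ 2) W φ (Real.sqrt β)) e ((le_max_left _ _).trans he) hee
    simp only [XZ_eq] at h6
    exact h6
  have k1 := key Real.continuous_cos (fun t => Real.abs_cos_le_one t)
  have k2 := key Real.continuous_sin (fun t => Real.abs_sin_le_one t)
  have m1 := h3 β b2 (wR (Jl N k l) (l ^ 2) W) hW
  have m2 := h4 β b3 (wR (Jl N k l) (l ^ 2) W) hW
  rw [gE1_fam B hk hPQ hdet (fun j hj => (mem_Jl.1 hj).1) (fun j hj => (mem_Jl.1 hj).2.2.1)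
    (fun j hj => (mem_Jl.1 hj).2.2.2) _ g hg] at m1
  rw [Pool.Agent.Run7.h630.R2.gE1_odd B (fun x => by
    rw [Pool.Agent.Run7.h630.R2.ipE_neg_right, Real.sin_neg])] at m2
  have e1 : (2 : ℝ) / (l + 1) = 1 / (l + 1) + 1 / (l + 1) := by ring
  rw [e1]
  constructor
  · have a1 := abs_le.1 k1
    have a2 := abs_le.1 m1
    rw [abs_le]
    constructor <;> linarith [a1.1, a1.2, a2.1, a2.2]
  · have a1 := abs_le.1 k2
    have a2 := abs_le.1 m2
    rw [abs_le]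
    constructor <;> linarith [a1.1, a1.2, a2.1, a2.2]

end

end Run7.h630.ML
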