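import Pool.Agent.Run7.h630.WL.Lim
import Pool.Agent.Run7.h871.YM.Upper

/-!
# Infinite volume expectations of the fibre observables and finite tori, uniformly in `β`
-/

open MeasureTheory Matrix Filter Topology
open Pool.Agent.H906R3.YM (UN mt)
open Pool.Agent.Run7.h897 (TW.XT TW.XE TW.rate TW.Cn TW.CrS TW.perZ TW.tz TW.rd TW.Lk TW.LkZ TW.tr)
open Pool.Agent.Run7.h897.FS (PM BM)
open Pool.Agent.Run7.h897.ST (S4 S6 phi phi_cont phi_symm_cont mu6 mu6_haar mu6_prob cfE cfE_mp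
  act_eq siE lkE)
open Pool.Agent.Run7.h871.TC (wE)
open Run7.h4.YM
open Run7.h630.WL

namespace Run7.h630.ML

set_option linter.unusedSectionVars false
set_option linter.style.haveILetI false

noncomputable section

variable {N l : ℕ} [NeZero N] [NeZero l] [MeasurableSpace (S4 N)] [BorelSpace (S4 N)]
  [MeasurableSpace (S6 N)] [BorelSpace (S6 N)]

/-- `F` depends only on the links in the direction `2` over the points within the distance `R` -/
def Loc2 (R : ℕ) (F : (LinkZ l → SU N) → ℝ) : Prop :=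
  ∀ V V' : LinkZ l → SU N,
    (∀ e : LinkZ l, e.1 = 2 → |e.2.1| ≤ R → |e.2.2.1| ≤ R → V e = V' e) → F V = F V'

/-- the observable on the torus, translated by `(R, R)` -/
def tob (R : ℕ) (F : (LinkZ l → SU N) → ℝ) {a b : ℕ} (U : TW.Lk a b l → S6 N) : ℝ :=
  F6 F fun e => TW.perZ U (TW.tz R R e)

/-- the observable on the quadrant -/
def hob (R : ℕ) (F : (LinkZ l → SU N) → ℝ) (V : ((ℕ × ℕ) × (ZMod l × ZMod l)) × Fin 4 → S6 N) :
    ℝ := F6 F fun e => V ((((e.1.1.1 + R).toNat, (e.1.1.2 + R).toNat), e.1.2), e.2)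

lemma F6_loc {R : ℕ} {F : (LinkZ l → SU N) → ℝ} (hF : Loc2 R F) {V V' : TW.LkZ l → S6 N}
    (h : ∀ e : TW.LkZ l, e.2 = 2 → |e.1.1.1| ≤ R → |e.1.1.2| ≤ R → V e = V' e) :
    F6 F V = F6 F V' := by
  unfold F6
  exact hF _ _ fun e h1 h2 h3 => by rw [h (lz l e) h1 h2 h3]

lemma hob_rd {R : ℕ} {F : (LinkZ l → SU N) → ℝ} (hF : Loc2 R F) {a b : ℕ}
    (U : TW.Lk a b l → S6 N) : hob R F (TW.rd a b l U) = tob R F U := by
  unfold hob tob
  refine F6_loc hF fun e h0 h1 h2 => ?_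
  rw [abs_le] at h1 h2
  unfold TW.perZ TW.tz TW.rd
  simp only
  have e1 : (((e.1.1.1 + R : ℤ)) : ZMod a) = (((e.1.1.1 + R).toNat : ℕ) : ZMod a) := by
    conv_lhs => rw [← Int.toNat_of_nonneg (show 0 ≤ e.1.1.1 + R by omega)]
    rw [Int.cast_natCast]
  have e2 : (((e.1.1.2 + R : ℤ)) : ZMod b) = (((e.1.1.2 + R).toNat : ℕ) : ZMod b) := by
    conv_lhs => rw [← Int.toNat_of_nonneg (show 0 ≤ e.1.1.2 + R by omega)]
    rw [Int.cast_natCast]
  rw [e1, e2]

lemma tob_cont {R : ℕ} {F : (LinkZ l → SU N) → ℝ} (hF : Continuous F) {a b : ℕ} :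
    Continuous fun U : TW.Lk a b l → S6 N => tob R F U := by
  unfold tob
  exact (F6_cont hF).comp (continuous_pi fun e => continuous_apply _)

/-- the observables do not see the centre of the base links -/
lemma tob_tr {R : ℕ} {F : (LinkZ l → SU N) → ℝ} (hF : Loc2 R F) {a b : ℕ}
    (c : ZMod a × ZMod b → Fin 2 → ZMod N) (U : TW.Lk a b l → S6 N) :
    tob R F (TW.tr (Pool.Agent.Run7.h871.UP.zc N) c U) = tob R F U := by
  unfold tob
  refine F6_loc hF fun e h0 h1 h2 => ?_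
  obtain ⟨⟨⟨x, y⟩, v⟩, i⟩ := e
  simp only at h0
  subst h0
  unfold TW.perZ TW.tz TW.tr
  simp only
  have h3 : Pool.Agent.Run7.h871.UP.zc N 0 = 1 :=
    (Pool.Agent.Run7.h871.UP.zc_cn (l := l) (k := 0) (0 : ℝ)).z0
  show Pool.Agent.Run7.h871.UP.zc N 0 * _ = _
  rw [h3, one_mul]

/-- **Infinite volume and finite tori, uniformly in `β`.** -/
theorem vol (hN : 2 ≤ N) {k : ℕ} (hk : Nat.Coprime k N) (μ : Measure (SU N))
    [IsProbabilityMeasure μ] [μ.IsHaarMeasure] :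
    ∃ β₁ : ℝ, ∀ (R : ℕ) (η : ℝ), 0 < η → ∃ n₀ : ℕ, ∀ β : ℝ, β₁ ≤ β →
      ∀ ν : Measure (LinkZ l → SU N), IsLimit k μ β ν → ∀ F : (LinkZ l → SU N) → ℝ,
        Continuous F → (∀ V, |F V| ≤ 1) → Loc2 R F → ∀ (e : ℕ) [NeZero e], n₀ ≤ e → Even e →
          |∫ V, F V ∂ν - Pool.Agent.Run7.h630.R2.Et (mu6 μ) k β
            (fun U : TW.Lk e e l → S6 N => tob R F U)| ≤ η := by
  haveI := mu6_prob μ
  haveI := mu6_haar μ
  haveI := Pool.Agent.Run7.h897.ST.right_inv'' (mu6 μ)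
  haveI := Pool.Agent.Run7.h897.ST.inv_inv'' (mu6 μ)
  obtain ⟨P, Q, hPQ⟩ := Pool.Agent.Run7.h871.TP.exists_twPair N hk
  have hr0 : 0 < TW.rate l N := by
    unfold TW.rate
    have := Real.arsinh_pos_iff.2 (Pool.Agent.Run7.h897.TW.sin_pos' hN l)
    linarith
  obtain ⟨m, hm0, hm1⟩ := exists_between hr0
  obtain ⟨a0, ha0, s, hs0, hs, -, β1, hβ1⟩ :=
    Pool.Agent.Run7.h871.TC.crit (mu6 μ) hN l hPQ hm0 hm1
  refine ⟨β1, fun R η hη => ?_⟩
  obtain ⟨n0, hn0⟩ := Run7.h182.Wl.size (μ := mu6 μ) (N := N) (l := l) ha0 hs0 hs (2 * R + 1)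
    (show 0 < η / 2 by positivity)
  refine ⟨n0, fun β hβ ν hν F hF hF1 hL e _ he hee => ?_⟩
  have hcr := hβ1 β hβ
  have hzc := Pool.Agent.Run7.h871.UP.zc_cn (N := N) (l := l) (k := k) β
  rw [Pool.Agent.Run7.h871.UP.Et_eq]
  -- the measurable version
  have hHm : Measurable (F6 F : (TW.LkZ l → S6 N) → ℝ) := (F6_cont hF).measurable
  have hobm : Measurable (hob R F : (((ℕ × ℕ) × (ZMod l × ZMod l)) × Fin 4 → S6 N) → ℝ) :=
    hHm.comp (measurable_pi_iff.2 fun _ => measurable_pi_apply _)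
  -- comparison of the theories
  obtain ⟨κ, hκ0, hκ1, hcmp⟩ := Pool.Agent.Run7.h897.TW.compare (μ := mu6 μ) (l := l)
    (Pool.Agent.Run7.h871.TC.wE_bd (l := l) (k := k) β) hzc
    (fun ι _ _ p ε h1 h2 h3 h4 => Pool.Agent.Run7.h897.TW.fourier_sum ι p ε h1 h2 h3 h4)
    (fun a b _ _ s hs => Pool.Agent.Run7.h630.R2.dc_range s hs)
  have hlim : Tendsto (fun j : ℕ => N * κ ^ j) atTop (𝓝 0) := by
    have := (tendsto_pow_atTop_nhds_zero_of_lt_one hκ0 hκ1).const_mul (N : ℝ)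
    rwa [mul_zero] at this
  obtain ⟨n2, hn2⟩ := eventually_atTop.1
    (hlim.eventually_le_const (show 0 < min (1 / 2) (η / 8) by positivity))
  -- the limit along the diagonal
  have h1 : Tendsto (fun p : ℕ => expect μ k β
      fun U : Link (2 * (p + 1)) (2 * (p + 1)) l → SU N => F (per U)) atTop
      (𝓝 (∫ V, F V ∂ν)) :=
    (hν.lim F hF).comp (tendsto_atTop_diagonal : Tendsto (fun q : ℕ => (q, q)) atTop atTop)
  have h2 := (h1.sub_const (TW.XE (mu6 μ) (wE N l k β)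
    (fun U : TW.Lk e e l → S6 N => tob R F U))).abs
  refine le_of_tendsto h2 ((eventually_ge_atTop (max n0 n2)).mono fun p hp => ?_)
  have hp0 : n0 ≤ 2 * (p + 1) := by have := (le_max_left _ _).trans hp; omega
  have hp2 : n2 ≤ 2 * (p + 1) * (2 * (p + 1)) := by
    have := (le_max_right _ _).trans hp
    nlinarith
  have hκ := hn2 _ hp2
  have hκa := hκ.trans (min_le_left _ _)
  have hκb := hκ.trans (min_le_right _ _)
  rw [expect_eq μ k β hF]
  have e1 := Run7.h182.Unq.XT_sh (μ := mu6 μ) (a := 2 * (p + 1)) (b := 2 * (p + 1))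
    (w := wE N l k β) (Pool.Agent.Run7.h871.TC.wE_bd (l := l) (k := k) β) (H := F6 F)
    ⟨hHm, 1, fun V => hF1 _⟩ R R
  rw [e1]
  have h3 := hcmp (2 * (p + 1)) (2 * (p + 1)) hκa
    (fun U : TW.Lk (2 * (p + 1)) (2 * (p + 1)) l → S6 N => tob R F U) 1
    ⟨(tob_cont hF).measurable, 1, fun U => hF1 _⟩ (fun U => hF1 _) (fun c U => tob_tr hL c U)
  have h4 := hn0 _ (Pool.Agent.Run7.h871.TC.wE_bd (l := l) (k := k) β)
    (Pool.Agent.Run7.h871.TC.wE_sy β) hcr (hob R F) hobm (fun V => hF1 _)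
    (fun V V' h => by
      unfold hob
      refine F6_loc hL fun e h0 h1 h2 => ?_
      rw [abs_le] at h1 h2
      exact h _ (by simp only; omega) (by simp only; omega))
    (2 * (p + 1)) (2 * (p + 1)) e e hp0 hp0 he he (even_two_mul _) (even_two_mul _) hee hee
  simp only [hob_rd hL] at h4
  have h5 := abs_le.1 h3
  have h6 := abs_le.1 h4
  have h7 : TW.XT (mu6 μ) (wE N l k β) (fun U : TW.Lk (2 * (p + 1)) (2 * (p + 1)) l → S6 N =>
      F6 F fun e => TW.perZ U (TW.tz R R e)) = TW.XT (mu6 μ) (wE N l k β)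
        (fun U : TW.Lk (2 * (p + 1)) (2 * (p + 1)) l → S6 N => tob R F U) := rfl
  rw [h7, abs_le]
  constructor <;> linarith [h5.1, h5.2, h6.1, h6.2]

end

end Run7.h630.ML
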